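import Pool.Agent.H40.Pluri.Main

set_option autoImplicit false

open Set Filter Topology Metric Real Complex ComplexConjugate

namespace Pool.Agent.H40.Pluri

variable {X : Type*} [NormedAddCommGroup X] [InnerProductSpace ℂ X]

lemma fderiv_tangent {F : Type*} [NormedAddCommGroup F] [NormedSpace ℝ F] {M U : Set X}
    {ρ : X → F} {q v : X} (hU : IsOpen U) (hqU : q ∈ U) (hρ : DifferentiableAt ℝ ρ q)
    (hMU : M ∩ U = {z | z ∈ U ∧ ρ z = 0}) (hv : v ∈ tangentVectors M q) :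
    fderiv ℝ ρ q v = 0 := by
  obtain ⟨γ, hγ0, hγM, hγd⟩ := hv
  have h1 : HasDerivAt (ρ ∘ γ) (fderiv ℝ ρ q v) 0 := by
    have h2 : HasFDerivAt ρ (fderiv ℝ ρ q) (γ 0) := by rw [hγ0]; exact hρ.hasFDerivAt
    exact h2.comp_hasDerivAt 0 hγd
  have h3 : ρ ∘ γ =ᶠ[𝓝 0] fun _ => 0 := by
    have h4 : ∀ᶠ t in 𝓝 (0 : ℝ), γ t ∈ U := by
      apply hγd.continuousAt.eventually
      rw [hγ0]
      exact hU.mem_nhds hqU
    filter_upwards [hγM, h4] with t ht1 ht2
    have h5 : γ t ∈ M ∩ U := ⟨ht1, ht2⟩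
    rw [hMU] at h5
    exact h5.2
  exact (h1.congr_of_eventuallyEq h3.symm).unique (hasDerivAt_const (0 : ℝ) (0 : F))

theorem closure_propP [FiniteDimensional ℂ X] (M D : Set X) (m : ℕ) (hm : 1 ≤ m)
    (hM : IsSubmanifold m M) (hG : IsGeneric M) (hD : IsC1Domain M D) :
    ∃ C : ℝ, 0 < C ∧ ∃ e : ℝ, 0 < e ∧ PropP (closure D) C e := by
  rcases subsingleton_or_nontrivial X with hX | hX
  · refine ⟨1, one_pos, 1, one_pos, fun κ hκ => ⟨1, one_pos, fun p hp => ⟨⊤, 0, by simp, ?_, ?_⟩⟩⟩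
    · intro w
      exact ⟨0, by simp, 0, by simp, Subsingleton.elim _ _, by simp, by simp⟩
    · intro t ht _ f _ _
      refine ⟨p, hp, ?_⟩
      rw [Subsingleton.elim (p + (t : ℂ) • (0 : X) + f - p) 0, norm_zero]
      positivity
  apply propP_of_local _ hD.isCompact_closure
  intro q hq
  have hqM : q ∈ M := hD.closure_subset hq
  obtain ⟨O, hO, hDO⟩ := hD.isOpen_in
  obtain ⟨k, ρ, U₁, hU₁, hqU₁, hρ, hsurj, hMU⟩ := hM q hqM
  have hρ1 : ContDiffOn ℝ 1 ρ U₁ := hρ.of_le (by exact_mod_cast hm)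
  have hρd : DifferentiableAt ℝ ρ q :=
    ((hρ1.contDiffAt (hU₁.mem_nhds hqU₁)).differentiableAt one_ne_zero)
  have htan : ∀ v ∈ tangentVectors M q, fderiv ℝ ρ q v = 0 := fun v hv =>
    fderiv_tangent hU₁ hqU₁ hρd hMU hv
  have hρq : ρ q = 0 := by
    have : q ∈ M ∩ U₁ := ⟨hqM, hqU₁⟩
    rw [hMU] at this
    exact this.2
  have hgen : ∀ w : X, ∃ v₁ v₂ : X, fderiv ℝ ρ q v₁ = 0 ∧ fderiv ℝ ρ q v₂ = 0 ∧
      w = v₁ + I • v₂ := by
    intro w
    obtain ⟨v₁, hv₁, v₂, hv₂, h⟩ := hG q hqM w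
    exact ⟨v₁, v₂, htan v₁ hv₁, htan v₂ hv₂, h⟩
  have hMU' : ∀ z ∈ U₁, z ∈ M ↔ ρ z = 0 := by
    intro z hz
    constructor
    · intro h
      have : z ∈ M ∩ U₁ := ⟨h, hz⟩
      rw [hMU] at this
      exact this.2
    · intro h
      have : z ∈ {z | z ∈ U₁ ∧ ρ z = 0} := ⟨hz, h⟩
      rw [← hMU] at this
      exact this.1
  by_cases hqD : q ∈ D
  · -- interior point
    obtain ⟨w, hw⟩ := exists_ne (0 : X)
    obtain ⟨v₁, hv₁, v₂, hv₂, h⟩ := hG q hqM w
    obtain ⟨v, hv, hv0⟩ : ∃ v ∈ tangentVectors M q, v ≠ 0 := by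
      by_contra hcon
      push Not at hcon
      apply hw
      rw [h, hcon v₁ hv₁, hcon v₂ hv₂]
      simp
    set ℓ : X →L[ℝ] ℝ := Complex.reCLM.comp ((innerSL ℂ v).restrictScalars ℝ) with hℓ
    have hℓv : ℓ v ≠ 0 := by
      have h1 : ℓ v = (inner ℂ v v).re := rfl
      rw [h1, inner_self_eq_norm_sq_to_K]
      have h2 : ((‖v‖ : ℂ) ^ 2).re = ‖v‖ ^ 2 := by
        rw [← Complex.ofReal_pow, Complex.ofReal_re]
      have h3 : 0 < ‖v‖ := norm_pos_iff.2 hv0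
      intro h4
      have h5 : ‖v‖ ^ 2 = 0 := by rw [← h2]; exact h4
      exact absurd h5 (pow_ne_zero 2 h3.ne')
    have hrd : HasFDerivAt (fun z => ℓ z - ℓ q) ℓ q := ℓ.hasFDerivAt.sub_const _
    apply local_geom M D O hO hDO hD.closure_subset q (U₁ ∩ O) (hU₁.inter hO)
      ⟨hqU₁, by rw [hDO] at hqD; exact hqD.1⟩ ρ (hρ1.mono inter_subset_left) hρq
      (fun z hz => hMU' z hz.1) (hsurj q hqU₁) (fun z => ℓ z - ℓ q)
    · exact (ℓ.contDiff.sub contDiff_const).contDiffOn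
    · simp
    · intro z hz hzc _
      rw [hDO]
      exact ⟨hz.2, hD.closure_subset hzc⟩
    · exact hgen
    · exact ⟨v, htan v hv, by rw [hrd.fderiv]; exact hℓv⟩
  · obtain ⟨U₂, r, hU₂, hqU₂, hr, hbd, v, hv, hrv⟩ := hD.boundary q ⟨hq, hqD⟩
    have hrq : r q = 0 := by
      have : q ∈ (closure D \ D) ∩ U₂ := ⟨⟨hq, hqD⟩, hqU₂⟩
      rw [hbd] at this
      exact this.2
    apply local_geom M D O hO hDO hD.closure_subset q (U₁ ∩ U₂) (hU₁.inter hU₂)
      ⟨hqU₁, hqU₂⟩ ρ (hρ1.mono inter_subset_left) hρq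
      (fun z hz => hMU' z hz.1) (hsurj q hqU₁) r (hr.mono inter_subset_right) hrq
    · intro z hz hzc hrz
      by_contra hzD
      apply hrz
      have : z ∈ (closure D \ D) ∩ U₂ := ⟨⟨hzc, hzD⟩, hz.2⟩
      rw [hbd] at this
      exact this.2
    · exact hgen
    · exact ⟨v, htan v hv, hrv⟩

omit [InnerProductSpace ℂ X] in
/-- A function with a Hölder bound is continuous. -/
lemma continuous_of_holder (f : X → ℝ) (A α : ℝ) (hα : 0 < α)
    (h : ∀ z w, |f z - f w| ≤ A * ‖z - w‖ ^ α) : Continuous f := by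
  rw [continuous_iff_continuousAt]
  intro z
  unfold ContinuousAt
  rw [tendsto_iff_norm_sub_tendsto_zero]
  have h1 : Tendsto (fun w : X => A * ‖w - z‖ ^ α) (𝓝 z) (𝓝 (A * ‖z - z‖ ^ α)) := by
    apply Continuous.tendsto
    apply continuous_const.mul
    exact (continuous_norm.comp (continuous_id.sub continuous_const)).rpow_const
      (fun _ => Or.inr hα.le)
  rw [sub_self, norm_zero, Real.zero_rpow hα.ne', mul_zero] at h1
  exact squeeze_zero (fun _ => norm_nonneg _) (fun w => h w z) h1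

theorem closure_regular [FiniteDimensional ℂ X] (M D : Set X) (m : ℕ) (hm : 1 ≤ m)
    (hM : IsSubmanifold m M) (hG : IsGeneric M) (hD : IsC1Domain M D) :
    ∃ f : X → ℝ, Continuous f ∧ (∀ z, greenVStar (closure D) z = (f z : EReal)) ∧
      (∀ z, greenV (closure D) z = (f z : EReal)) ∧
      ∃ A α : ℝ, 0 < α ∧ ∀ z w, |f z - f w| ≤ A * ‖z - w‖ ^ α := by
  obtain ⟨C, hC, e, he, hP⟩ := closure_propP M D m hm hM hG hD
  obtain ⟨h1, A, α, hα, h2⟩ := main_analysis (closure D) hD.isCompact_closure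
    hD.isConnected.nonempty.closure C e hC he hP
  have hc : Continuous (W (closure D)) := continuous_of_holder _ A α hα h2
  refine ⟨W (closure D), hc, fun z => ?_, h1, A, α, hα, h2⟩
  have h3 : greenV (closure D) = fun z => ((W (closure D) z : ℝ) : EReal) := funext h1
  unfold greenVStar
  rw [h3]
  exact (EReal.continuous_coe_iff.2 hc).continuousAt.tendsto.limsup_eq

end Pool.Agent.H40.Pluri
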