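import Pool.Agent.H40.Pluri.Iter

set_option autoImplicit false

open Set Filter Topology Metric Real Complex ComplexConjugate

namespace Pool.Agent.H40.Pluri

variable {X : Type*} [NormedAddCommGroup X] [InnerProductSpace ℂ X]

/-- A straightening chart: `ρ = 0` is parametrised by `g (σ, τ)` with `r (g (σ, τ)) = σ`. -/
theorem chart [FiniteDimensional ℂ X] {F : Type*} [NormedAddCommGroup F] [NormedSpace ℝ F]
    [FiniteDimensional ℝ F] (q : X) (U : Set X) (hU : IsOpen U) (hqU : q ∈ U)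
    (ρ : X → F) (hρ : ContDiffOn ℝ 1 ρ U) (hρq : ρ q = 0)
    (hsurj : Function.Surjective (fderiv ℝ ρ q)) (r : X → ℝ) (hr : ContDiffOn ℝ 1 r U)
    (hrq : r q = 0) (hrv : ∃ v, fderiv ℝ ρ q v = 0 ∧ fderiv ℝ r q v ≠ 0) :
    ∃ (V : Submodule ℝ X) (g : ℝ × V → X) (Λ : X →L[ℝ] ℝ × V) (a : ℝ), 0 < a ∧
      (∀ s ∈ ball (0 : ℝ × V) a, ContDiffAt ℝ 1 g s) ∧
      (∀ s ∈ ball (0 : ℝ × V) a, g s ∈ U ∧ ρ (g s) = 0 ∧ r (g s) = s.1) ∧
      (∀ b > 0, ∃ W ∈ 𝓝 q, IsOpen W ∧ ∀ z ∈ W, ρ z = 0 → ∃ s ∈ ball (0 : ℝ × V) b, g s = z) ∧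
      (∀ h, Λ (fderiv ℝ g 0 h) = h) ∧
      (∀ v, fderiv ℝ ρ q v = 0 → fderiv ℝ g 0 (Λ v) = v) := by
  have : CompleteSpace X := FiniteDimensional.complete ℂ X
  have hfd : FiniteDimensional ℝ X := FiniteDimensional.complexToReal X
  set A : X →L[ℝ] F := fderiv ℝ ρ q with hA
  set B : X →L[ℝ] ℝ := fderiv ℝ r q with hB
  set V : Submodule ℝ X := LinearMap.ker (A.prod B : X →L[ℝ] F × ℝ).toLinearMap with hV
  have hmemV : ∀ w : X, w ∈ V ↔ A w = 0 ∧ B w = 0 := by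
    intro w
    simp [hV, LinearMap.mem_ker]
  obtain ⟨pr₀, hpr₀⟩ := V.subtype.exists_leftInverse_of_injective (Submodule.ker_subtype V)
  set pr : X →L[ℝ] V := LinearMap.toContinuousLinearMap pr₀ with hpr
  have hprV : ∀ v : V, pr (v : X) = v := by
    intro v
    have h1 := LinearMap.congr_fun hpr₀ v
    have h2 : pr (v : X) = pr₀ (v : X) := rfl
    rw [h2]
    simpa using h1
  set Λ : X →L[ℝ] ℝ × V := B.prod pr with hΛ
  set L : X →L[ℝ] F × (ℝ × V) := A.prod Λ with hL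
  have hLinj : ∀ w, L w = 0 → w = 0 := by
    intro w hw
    simp only [hL, hΛ, ContinuousLinearMap.prod_apply, Prod.mk_eq_zero] at hw
    obtain ⟨h1, h2, h3⟩ := hw
    have h4 : w ∈ V := (hmemV w).2 ⟨h1, h2⟩
    have h5 := hprV ⟨w, h4⟩
    simp only at h5
    rw [h3] at h5
    have := congrArg (Subtype.val) h5
    simpa using this.symm
  have hLsurj : Function.Surjective L := by
    rintro ⟨α, b, v⟩
    obtain ⟨w₀, hw₀⟩ := hsurj α
    obtain ⟨v₀, hv₀, hv₀'⟩ := hrv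
    set w₁ : X := w₀ + ((b - B w₀) / B v₀) • v₀ with hw₁
    have h1 : A w₁ = α := by
      rw [hw₁, map_add, map_smul, hv₀, smul_zero, add_zero, hw₀]
    have h2 : B w₁ = b := by
      rw [hw₁, map_add, map_smul, smul_eq_mul, div_mul_cancel₀ _ hv₀']
      ring
    refine ⟨w₁ + ((v - pr w₁ : V) : X), ?_⟩
    have h3 := (hmemV _).1 (v - pr w₁ : V).2
    have h4 := hprV (v - pr w₁ : V)
    simp only [hL, hΛ, ContinuousLinearMap.prod_apply, Prod.mk.injEq]
    refine ⟨?_, ?_, ?_⟩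
    · rw [map_add, h1, h3.1, add_zero]
    · rw [map_add, h2, h3.2, add_zero]
    · rw [map_add, h4]; abel
  set e₀ : X ≃L[ℝ] F × (ℝ × V) := ContinuousLinearEquiv.ofBijective L
    (LinearMap.ker_eq_bot'.2 hLinj) (LinearMap.range_eq_top.2 hLsurj) with he₀
  have he₀L : (e₀ : X →L[ℝ] F × (ℝ × V)) = L := by
    ext1 w
    rfl
  -- the map Φ
  set Φ : X → F × (ℝ × V) := fun z => (ρ z, (r z, pr (z - q))) with hΦ
  have hUq : U ∈ 𝓝 q := hU.mem_nhds hqU
  have hρq' : ContDiffAt ℝ 1 ρ q := hρ.contDiffAt hUq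
  have hrq' : ContDiffAt ℝ 1 r q := hr.contDiffAt hUq
  have hΦc : ContDiffAt ℝ 1 Φ q := by
    apply hρq'.prodMk
    apply hrq'.prodMk
    exact (pr.contDiff.comp (contDiff_id.sub contDiff_const)).contDiffAt
  have hΦd : HasFDerivAt Φ (e₀ : X →L[ℝ] F × (ℝ × V)) q := by
    rw [he₀L]
    apply HasFDerivAt.prodMk
    · exact (hρq'.differentiableAt one_ne_zero).hasFDerivAt
    · apply HasFDerivAt.prodMk
      · exact (hrq'.differentiableAt one_ne_zero).hasFDerivAt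
      · have h1 : HasFDerivAt (fun z : X => z - q) (ContinuousLinearMap.id ℝ X) q :=
          (hasFDerivAt_id q).sub_const q
        have h2 := HasFDerivAt.comp (f := fun z : X => z - q) q (pr.hasFDerivAt (x := q - q)) h1
        rw [ContinuousLinearMap.comp_id] at h2
        exact h2
  have hΦq : Φ q = (0, 0) := by simp [hΦ, hρq, hrq]
  set Θ := hΦc.toOpenPartialHomeomorph Φ hΦd one_ne_zero with hΘ
  have hΘΦ : ∀ z, Θ z = Φ z := fun z => rfl
  have hqs : q ∈ Θ.source := hΦc.mem_toOpenPartialHomeomorph_source hΦd one_ne_zero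
  have hqt : ((0, 0) : F × (ℝ × V)) ∈ Θ.target := by
    rw [← hΦq]
    exact hΦc.image_mem_toOpenPartialHomeomorph_target hΦd one_ne_zero
  have hsymm : ContDiffAt ℝ 1 Θ.symm (0, 0) := by
    rw [← hΦq]
    exact hΦc.to_localInverse hΦd one_ne_zero
  set g : ℝ × V → X := fun s => Θ.symm (0, s) with hg
  have hg0 : g 0 = q := by
    have := Θ.left_inv hqs
    rw [hΘΦ, hΦq] at this
    exact this
  have hgc0 : ContDiffAt ℝ 1 g 0 := by
    have h1 : ContDiffAt ℝ 1 (fun s : ℝ × V => ((0 : F), s)) 0 :=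
      (contDiff_const.prodMk contDiff_id).contDiffAt
    exact ContDiffAt.comp (0 : ℝ × V) (f := fun s : ℝ × V => ((0 : F), s)) hsymm h1
  have hev1 : ∀ᶠ s in 𝓝 (0 : ℝ × V), ContDiffAt ℝ 1 g s := hgc0.eventually (by simp)
  have hinc : Tendsto (fun s : ℝ × V => ((0 : F), s)) (𝓝 0) (𝓝 (0, 0)) :=
    Continuous.tendsto (by fun_prop) _
  have hev2 : ∀ᶠ s in 𝓝 (0 : ℝ × V), ((0 : F), s) ∈ Θ.target :=
    hinc.eventually (Θ.open_target.mem_nhds hqt)
  have hev3 : ∀ᶠ s in 𝓝 (0 : ℝ × V), g s ∈ U := by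
    apply hgc0.continuousAt.eventually
    rw [hg0]
    exact hUq
  obtain ⟨a, ha0, ha⟩ := Metric.eventually_nhds_iff_ball.1 (hev1.and (hev2.and hev3))
  have hright : ∀ s : ℝ × V, ((0 : F), s) ∈ Θ.target → Φ (g s) = (0, s) := by
    intro s hs
    exact Θ.right_inv hs
  have hgd : HasFDerivAt g (fderiv ℝ g 0) 0 := (hgc0.differentiableAt one_ne_zero).hasFDerivAt
  have hcomp : ∀ h : ℝ × V, L (fderiv ℝ g 0 h) = (0, h) := by
    have h1 : HasFDerivAt (Φ ∘ g) (L.comp (fderiv ℝ g 0)) 0 := by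
      have h2 : HasFDerivAt Φ L (g 0) := by rw [hg0, ← he₀L]; exact hΦd
      exact h2.comp 0 hgd
    have h3 : Φ ∘ g =ᶠ[𝓝 0] fun s : ℝ × V => ((0 : F), s) := by
      filter_upwards [hev2] with s hs
      exact hright s hs
    have h4 : HasFDerivAt (fun s : ℝ × V => ((0 : F), s)) (ContinuousLinearMap.inr ℝ F (ℝ × V)) 0 :=
      (ContinuousLinearMap.inr ℝ F (ℝ × V)).hasFDerivAt
    have h5 := (h1.congr_of_eventuallyEq h3.symm).unique h4
    intro h
    have := DFunLike.congr_fun h5 h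
    simpa using this
  refine ⟨V, g, Λ, a, ha0, fun s hs => (ha s hs).1, ?_, ?_, ?_, ?_⟩
  · intro s hs
    obtain ⟨_, h2, h3⟩ := ha s hs
    have h4 := hright s h2
    simp only [hΦ, Prod.mk.injEq] at h4
    refine ⟨h3, h4.1, ?_⟩
    have h5 := congrArg Prod.fst h4.2
    exact h5
  · intro b hb
    have hcont : ContinuousAt (fun z : X => ((r z, pr (z - q)) : ℝ × V)) q := by
      apply ContinuousAt.prodMk
      · exact hrq'.continuousAt
      · fun_prop
    have h1 : ∀ᶠ z in 𝓝 q, ((r z, pr (z - q)) : ℝ × V) ∈ ball (0 : ℝ × V) b := by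
      apply hcont.eventually
      simp only [hrq, sub_self, map_zero]
      exact isOpen_ball.mem_nhds (mem_ball_self hb)
    obtain ⟨W, hW, hWo, hqW⟩ := _root_.mem_nhds_iff.1 (h1.and (Θ.open_source.mem_nhds hqs))
    refine ⟨W, hWo.mem_nhds hqW, hWo, fun z hz hρz => ?_⟩
    obtain ⟨h2, h3⟩ := hW hz
    refine ⟨(r z, pr (z - q)), h2, ?_⟩
    have h4 := Θ.left_inv h3
    rw [hΘΦ] at h4
    simp only [hΦ, hρz] at h4
    exact h4
  · intro h
    have := hcomp h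
    simp only [hL, ContinuousLinearMap.prod_apply, Prod.mk.injEq] at this
    exact this.2
  · intro v hv
    have h1 := hcomp (Λ v)
    have h2 : L v = (0, Λ v) := by
      simp only [hL, ContinuousLinearMap.prod_apply]
      rw [hv]
    have h3 : L (fderiv ℝ g 0 (Λ v) - v) = 0 := by rw [map_sub, h1, h2, sub_self]
    exact sub_eq_zero.1 (hLinj _ h3)

end Pool.Agent.H40.Pluri
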