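import Mathlib

set_option autoImplicit false

open Set Filter Topology Metric Real Complex

namespace Pool.Agent.H40.Pluri

variable {X : Type*} [NormedAddCommGroup X] [InnerProductSpace ℂ X]

/-- Plurisubharmonic functions `u : X → [-∞, ∞)` (the constant `-∞` is allowed): `u` is upper
semicontinuous and on every circle `{a + s b : |s| = 1}` of every complex line `u a` is at most
the mean value of `u`, i.e. at most the mean value of every continuous function `g ≥ u` on the
circle. -/
def IsPsh (u : X → EReal) : Prop :=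
  UpperSemicontinuous u ∧ (∀ z, u z ≠ ⊤) ∧
    ∀ a b : X, ∀ g : ℂ → ℝ, ContinuousOn g (sphere 0 1) →
      (∀ s ∈ sphere (0 : ℂ) 1, u (a + s • b) ≤ (g s : EReal)) →
      u a ≤ ((circleAverage g 0 1 : ℝ) : EReal)

/-- The Lelong class: plurisubharmonic functions with `u z ≤ log (1 + ‖z‖) + C`. -/
def IsLelong (u : X → EReal) : Prop :=
  IsPsh u ∧ ∃ C : ℝ, ∀ z, u z ≤ ((Real.log (1 + ‖z‖) + C : ℝ) : EReal)

/-- The pluricomplex Green function (Siciak extremal function) of `E`. -/
noncomputable def greenV (E : Set X) (z : X) : EReal :=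
  ⨆ u ∈ {u : X → EReal | IsLelong u ∧ ∀ w ∈ E, u w ≤ 0}, u z

/-- The upper semicontinuous regularisation `V^*(z) = limsup_{w → z} V(w)`. -/
noncomputable def greenVStar (E : Set X) (z : X) : EReal :=
  limsup (greenV E) (𝓝 z)

/-- Tangent vectors of `M ⊆ X` at `p`: velocities at time `0` of differentiable (at `0`) curves
in `M` through `p`. -/
def tangentVectors (M : Set X) (p : X) : Set X :=
  {v | ∃ γ : ℝ → X, γ 0 = p ∧ (∀ᶠ t in 𝓝 0, γ t ∈ M) ∧ HasDerivAt γ v 0}

/-- `M` is an embedded real submanifold of class `C^m`: near each of its points it is the zero set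
of a `C^m` submersion to some `ℝ^k`. -/
def IsSubmanifold (m : ℕ) (M : Set X) : Prop :=
  ∀ p ∈ M, ∃ (k : ℕ) (ρ : X → EuclideanSpace ℝ (Fin k)) (U : Set X), IsOpen U ∧ p ∈ U ∧
    ContDiffOn ℝ m ρ U ∧ (∀ z ∈ U, Function.Surjective (fderiv ℝ ρ z)) ∧
    M ∩ U = {z | z ∈ U ∧ ρ z = 0}

/-- `M` is generic: `T_p M + i T_p M = X` for every `p ∈ M`. -/
def IsGeneric (M : Set X) : Prop :=
  ∀ p ∈ M, ∀ w : X, ∃ v₁ ∈ tangentVectors M p, ∃ v₂ ∈ tangentVectors M p, w = v₁ + I • v₂

/-- `D` is a relatively compact domain with `C^1`-smooth boundary in `M`: a connected (nonempty)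
relatively open subset of `M` whose closure is compact and contained in `M` and whose boundary
`closure D \ D` in `M` is a `C^1` hypersurface of `M`, i.e. near each of its points `q` it is the
zero set in `M` of a `C^1` function `r` whose differential does not vanish on `T_q M`. -/
structure IsC1Domain (M D : Set X) : Prop where
  isOpen_in : ∃ O : Set X, IsOpen O ∧ D = O ∩ M
  isConnected : IsConnected D
  isCompact_closure : IsCompact (closure D)
  closure_subset : closure D ⊆ M
  boundary : ∀ q ∈ closure D \ D, ∃ (U : Set X) (r : X → ℝ), IsOpen U ∧ q ∈ U ∧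
    ContDiffOn ℝ 1 r U ∧ (closure D \ D) ∩ U = {z | z ∈ M ∩ U ∧ r z = 0} ∧
    ∃ v ∈ tangentVectors M q, fderiv ℝ r q v ≠ 0

end Pool.Agent.H40.Pluri
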