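import Pool.Agent.H40.Pluri.Chart

set_option autoImplicit false

open Set Filter Topology Metric Real Complex ComplexConjugate

namespace Pool.Agent.H40.Pluri

variable {X : Type*} [NormedAddCommGroup X] [InnerProductSpace ℂ X]

/-- One-sided flatness of `E` at the point `p`. -/
def LocalP (E : Set X) (p : X) (C e κ δ : ℝ) : Prop :=
  ∃ (T : Submodule ℝ X) (ν : X), ‖ν‖ ≤ C ∧
    (∀ w : X, ∃ x ∈ T, ∃ y ∈ T, w = x + I • y ∧ ‖x‖ ≤ C * ‖w‖ ∧ ‖y‖ ≤ C * ‖w‖) ∧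
    ∀ t : ℝ, 0 ≤ t → t ≤ δ → ∀ f ∈ T, ‖f‖ ≤ e * t → ∃ q ∈ E, ‖p + (t : ℂ) • ν + f - q‖ ≤ κ * t

lemma LocalP.mono {E : Set X} {p : X} {C C' e e' κ δ δ' : ℝ} (h : LocalP E p C e κ δ)
    (hC : C ≤ C') (he : e' ≤ e) (hδ : δ' ≤ δ) : LocalP E p C' e' κ δ' := by
  obtain ⟨T, ν, h1, h2, h3⟩ := h
  refine ⟨T, ν, h1.trans hC, fun w => ?_, fun t ht htδ f hf hfn => ?_⟩
  · obtain ⟨x, hx, y, hy, hw, hxn, hyn⟩ := h2 w
    exact ⟨x, hx, y, hy, hw, hxn.trans (mul_le_mul_of_nonneg_right hC (norm_nonneg _)),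
      hyn.trans (mul_le_mul_of_nonneg_right hC (norm_nonneg _))⟩
  · exact h3 t ht (htδ.trans hδ) f hf (hfn.trans (mul_le_mul_of_nonneg_right he ht))

theorem propP_of_local (E : Set X) (hE : IsCompact E)
    (h : ∀ q ∈ E, ∃ C : ℝ, 0 < C ∧ ∃ e : ℝ, 0 < e ∧ ∃ W ∈ 𝓝 q, ∀ κ : ℝ, 0 < κ →
      ∃ δ : ℝ, 0 < δ ∧ ∀ p ∈ E ∩ W, LocalP E p C e κ δ) :
    ∃ C : ℝ, 0 < C ∧ ∃ e : ℝ, 0 < e ∧ PropP E C e := by
  apply hE.induction_on (p := fun S => ∃ C : ℝ, 0 < C ∧ ∃ e : ℝ, 0 < e ∧ ∀ κ : ℝ, 0 < κ →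
      ∃ δ : ℝ, 0 < δ ∧ ∀ p ∈ S, LocalP E p C e κ δ)
  · exact ⟨1, one_pos, 1, one_pos, fun κ _ => ⟨1, one_pos, fun p hp => absurd hp (notMem_empty p)⟩⟩
  · rintro S S' hSS ⟨C, hC, e, he, h1⟩
    refine ⟨C, hC, e, he, fun κ hκ => ?_⟩
    obtain ⟨δ, hδ, h2⟩ := h1 κ hκ
    exact ⟨δ, hδ, fun p hp => h2 p (hSS hp)⟩
  · rintro S S' ⟨C, hC, e, he, h1⟩ ⟨C', hC', e', he', h1'⟩
    refine ⟨max C C', lt_max_of_lt_left hC, min e e', lt_min he he', fun κ hκ => ?_⟩
    obtain ⟨δ, hδ, h2⟩ := h1 κ hκ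
    obtain ⟨δ', hδ', h2'⟩ := h1' κ hκ
    refine ⟨min δ δ', lt_min hδ hδ', fun p hp => ?_⟩
    rcases hp with hp | hp
    · exact (h2 p hp).mono (le_max_left _ _) (min_le_left _ _) (min_le_left _ _)
    · exact (h2' p hp).mono (le_max_right _ _) (min_le_right _ _) (min_le_right _ _)
  · intro q hq
    obtain ⟨C, hC, e, he, W, hW, h1⟩ := h q hq
    exact ⟨E ∩ W, inter_mem_nhdsWithin E hW, C, hC, e, he, h1⟩


omit [InnerProductSpace ℂ X] in
lemma side {V : Type*} [NormedAddCommGroup V] [NormedSpace ℝ V] (M D O U : Set X)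
    (hO : IsOpen O) (hD : D = O ∩ M) (r : X → ℝ)
    (hfr : ∀ z ∈ U, z ∈ closure D → r z ≠ 0 → z ∈ D)
    (g : ℝ × V → X) (a : ℝ) (hgc : ContinuousOn g (ball 0 a))
    (hg : ∀ s ∈ ball (0 : ℝ × V) a, g s ∈ U ∧ g s ∈ M ∧ r (g s) = s.1) (η : ℝ)
    (h : ∃ s ∈ ball (0 : ℝ × V) a, 0 < η * s.1 ∧ g s ∈ D) :
    ∀ s ∈ ball (0 : ℝ × V) a, 0 < η * s.1 → g s ∈ D := by
  set S : Set (ℝ × V) := ball 0 a ∩ {s | 0 < η * s.1} with hS
  have hconv : Convex ℝ S := by
    apply (convex_ball _ _).inter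
    intro x hx y hy α β hα hβ hαβ
    simp only [mem_ofPred_eq, Prod.fst_add, Prod.smul_fst, smul_eq_mul] at hx hy ⊢
    have h1 : η * (α * x.1 + β * y.1) = α * (η * x.1) + β * (η * y.1) := by ring
    rw [h1]
    rcases hα.eq_or_lt with h0 | h0
    · have : β = 1 := by linarith
      rw [← h0, this]; linarith
    · have h2 : 0 < α * (η * x.1) := mul_pos h0 hx
      have h3 : 0 ≤ β * (η * y.1) := mul_nonneg hβ hy.le
      linarith
  set u : Set (ℝ × V) := ball 0 a ∩ g ⁻¹' O with hu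
  have huo : IsOpen u := hgc.isOpen_inter_preimage isOpen_ball hO
  have hne : (S ∩ u).Nonempty := by
    obtain ⟨s, hs, hs1, hs2⟩ := h
    rw [hD] at hs2
    exact ⟨s, ⟨hs, hs1⟩, ⟨hs, hs2.1⟩⟩
  have hcl : closure u ∩ S ⊆ u := by
    rintro s ⟨hs1, hs2⟩
    have h1 : ContinuousAt g s := hgc.continuousAt (isOpen_ball.mem_nhds hs2.1)
    have h2 : g s ∈ closure (g '' u) := h1.continuousWithinAt.mem_closure_image hs1
    have h3 : g '' u ⊆ D := by
      rintro _ ⟨s', hs', rfl⟩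
      rw [hD]
      exact ⟨hs'.2, (hg s' hs'.1).2.1⟩
    have h4 : g s ∈ closure D := closure_mono h3 h2
    obtain ⟨h5, h6, h7⟩ := hg s hs2.1
    have h8 : r (g s) ≠ 0 := by
      rw [h7]
      intro h0
      have := hs2.2
      simp [h0] at this
    have h9 := hfr _ h5 h4 h8
    rw [hD] at h9
    exact ⟨hs2.1, h9.1⟩
  have hfin := hconv.isPreconnected.subset_of_closure_inter_subset huo hne hcl
  intro s hs hs1
  have h1 := hfin ⟨hs, hs1⟩
  rw [hD]
  exact ⟨h1.2, (hg s hs).2.1⟩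

theorem local_geom [FiniteDimensional ℂ X] {F : Type*} [NormedAddCommGroup F] [NormedSpace ℝ F]
    [FiniteDimensional ℝ F] (M D O : Set X) (hO : IsOpen O) (hD : D = O ∩ M)
    (hcl : closure D ⊆ M) (q : X) (U : Set X) (hU : IsOpen U) (hqU : q ∈ U)
    (ρ : X → F) (hρ : ContDiffOn ℝ 1 ρ U) (hρq : ρ q = 0) (hMU : ∀ z ∈ U, z ∈ M ↔ ρ z = 0)
    (hsurj : Function.Surjective (fderiv ℝ ρ q)) (r : X → ℝ) (hr : ContDiffOn ℝ 1 r U)
    (hrq : r q = 0) (hfr : ∀ z ∈ U, z ∈ closure D → r z ≠ 0 → z ∈ D)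
    (hgen : ∀ w : X, ∃ v₁ v₂ : X, fderiv ℝ ρ q v₁ = 0 ∧ fderiv ℝ ρ q v₂ = 0 ∧ w = v₁ + I • v₂)
    (hrv : ∃ v, fderiv ℝ ρ q v = 0 ∧ fderiv ℝ r q v ≠ 0) :
    ∃ C : ℝ, 0 < C ∧ ∃ e : ℝ, 0 < e ∧ ∃ W ∈ 𝓝 q, ∀ κ : ℝ, 0 < κ →
      ∃ δ : ℝ, 0 < δ ∧ ∀ p ∈ closure D ∩ W, LocalP (closure D) p C e κ δ := by
  have hfd : FiniteDimensional ℝ X := FiniteDimensional.complexToReal X
  obtain ⟨V, g, Λ, a₀, ha₀, hgC, hgU, hcov, hΛ1, hΛ2⟩ :=
    chart q U hU hqU ρ hρ hρq hsurj r hr hrq hrv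
  have hproper : ProperSpace (ℝ × V) := FiniteDimensional.proper ℝ (ℝ × V)
  set G : ℝ × V → (ℝ × V →L[ℝ] X) := fun s => fderiv ℝ g s with hG
  have hGc : ∀ s ∈ ball (0 : ℝ × V) a₀, ContinuousAt G s := by
    intro s hs
    have := (hgC s hs).fderiv_right (m := 0) (by simp)
    exact this.continuousAt
  have hgd : ∀ s ∈ ball (0 : ℝ × V) a₀, HasFDerivAt g (G s) s := fun s hs =>
    ((hgC s hs).differentiableAt one_ne_zero).hasFDerivAt
  -- multiplication by I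
  set J : X →L[ℝ] X := ContinuousLinearMap.restrictScalars ℝ (I • ContinuousLinearMap.id ℂ X)
    with hJ
  have hJ' : ∀ w, J w = I • w := fun w => rfl
  set L0 : ((ℝ × V) × (ℝ × V)) →L[ℝ] X :=
    (G 0).comp (ContinuousLinearMap.fst ℝ (ℝ × V) (ℝ × V)) +
    (J.comp (G 0)).comp (ContinuousLinearMap.snd ℝ (ℝ × V) (ℝ × V)) with hL0
  have hL0' : ∀ w : (ℝ × V) × (ℝ × V), L0 w = G 0 w.1 + I • G 0 w.2 := fun w => rfl
  have hL0s : Function.Surjective L0 := by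
    intro w
    obtain ⟨v₁, v₂, h1, h2, h3⟩ := hgen w
    refine ⟨(Λ v₁, Λ v₂), ?_⟩
    rw [hL0']
    simp only [hG]
    rw [hΛ2 v₁ h1, hΛ2 v₂ h2, h3]
  obtain ⟨R₀, hR₀⟩ := L0.toLinearMap.exists_rightInverse_of_surjective
    (LinearMap.range_eq_top.2 hL0s)
  set R : X →L[ℝ] (ℝ × V) × (ℝ × V) := LinearMap.toContinuousLinearMap R₀ with hR
  have hR' : ∀ w, G 0 (R w).1 + I • G 0 (R w).2 = w := by
    intro w
    have h1 := LinearMap.congr_fun hR₀ w
    have h2 : L0 (R₀ w) = w := by simpa using h1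
    have h3 : R w = R₀ w := rfl
    rw [h3, ← hL0', h2]
  -- constants
  set N : ℝ := ‖R‖ with hN
  set lam : ℝ := ‖Λ‖ with hlam
  have hN0 : 0 ≤ N := norm_nonneg R
  have hlam0 : 0 ≤ lam := norm_nonneg Λ
  set η₀ : ℝ := 1 / (4 * (N + lam + 1)) with hη₀
  have hη₀0 : 0 < η₀ := by positivity
  have hη₀m : η₀ * (4 * (N + lam + 1)) = 1 := by rw [hη₀]; field_simp
  have hη₀lam : η₀ * lam ≤ 1 / 4 := by nlinarith
  have hη₀N : η₀ * N ≤ 1 / 4 := by nlinarith
  have hη₀1 : η₀ ≤ 1 := by nlinarith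
  obtain ⟨a, ha0, haa₀, haG⟩ : ∃ a : ℝ, 0 < a ∧ a ≤ a₀ ∧
      ∀ s ∈ ball (0 : ℝ × V) a, ‖G s - G 0‖ ≤ η₀ := by
    have h1 := hGc 0 (mem_ball_self ha₀)
    obtain ⟨b, hb, hb'⟩ := (Metric.continuousAt_iff (α := ℝ × V) (β := ℝ × V →L[ℝ] X)).1 h1 η₀ hη₀0
    refine ⟨min b a₀, lt_min hb ha₀, min_le_right _ _, fun s hs => ?_⟩
    have h2 : dist s 0 < b := (mem_ball.1 hs).trans_le (min_le_left _ _)
    have h3 := hb' h2
    have h4 : dist (G s) (G 0) = ‖G s - G 0‖ := dist_eq_norm (G s) (G 0)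
    exact le_trans (le_of_eq h4.symm) (le_of_lt h3)
  have hball : ball (0 : ℝ × V) a ⊆ ball 0 a₀ := ball_subset_ball haa₀
  set g₁ : ℝ := ‖G 0‖ + 1 with hg₁
  have hg₁0 : 0 < g₁ := by positivity
  have hGn : ∀ s ∈ ball (0 : ℝ × V) a, ‖G s‖ ≤ g₁ := by
    intro s hs
    have h1 := haG s hs
    have h2 : ‖G s‖ ≤ ‖G s - G 0‖ + ‖G 0‖ := by
      have := norm_add_le (G s - G 0) (G 0)
      simpa using this
    linarith
  -- lower bound
  have hlow : ∀ s ∈ ball (0 : ℝ × V) a, ∀ h : ℝ × V, ‖h‖ ≤ 2 * lam * ‖G s h‖ := by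
    intro s hs h
    have h1 : h = Λ (G s h) - Λ ((G s - G 0) h) := by
      rw [← map_sub, sub_apply]
      have : G s h - (G s h - G 0 h) = G 0 h := by abel
      rw [this]
      exact (hΛ1 h).symm
    have h2 : ‖h‖ ≤ lam * ‖G s h‖ + lam * (η₀ * ‖h‖) := by
      calc ‖h‖ = ‖Λ (G s h) - Λ ((G s - G 0) h)‖ := by rw [← h1]
        _ ≤ ‖Λ (G s h)‖ + ‖Λ ((G s - G 0) h)‖ := norm_sub_le _ _
        _ ≤ lam * ‖G s h‖ + lam * (η₀ * ‖h‖) := by
          apply add_le_add (Λ.le_opNorm _)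
          refine (Λ.le_opNorm _).trans ?_
          apply mul_le_mul_of_nonneg_left _ hlam0
          exact ((G s - G 0).le_opNorm h).trans
            (mul_le_mul_of_nonneg_right (haG s hs) (norm_nonneg _))
    have h3 : lam * (η₀ * ‖h‖) ≤ 1 / 4 * ‖h‖ := by
      have := mul_le_mul_of_nonneg_right hη₀lam (norm_nonneg h)
      linarith
    linarith [norm_nonneg h]
  -- decomposition
  have hdec : ∀ s ∈ ball (0 : ℝ × V) a, ∀ w : X, ∃ h₁ h₂ : ℝ × V,
      w = G s h₁ + I • G s h₂ ∧ ‖h₁‖ ≤ 2 * N * ‖w‖ ∧ ‖h₂‖ ≤ 2 * N * ‖w‖ := by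
    intro s hs
    set S : X →L[ℝ] X := (G s).comp ((ContinuousLinearMap.fst ℝ (ℝ × V) (ℝ × V)).comp R) +
      (J.comp (G s)).comp ((ContinuousLinearMap.snd ℝ (ℝ × V) (ℝ × V)).comp R) with hS
    have hS' : ∀ w, S w = G s (R w).1 + I • G s (R w).2 := fun w => rfl
    have hSw : ∀ w, ‖S w - w‖ ≤ 1 / 2 * ‖w‖ := by
      intro w
      have h1 : S w - w = (G s - G 0) (R w).1 + I • (G s - G 0) (R w).2 := by
        have h0 := hR' w
        rw [hS', sub_apply, sub_apply, smul_sub]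
        rw [show G s (R w).1 - G 0 (R w).1 + (I • G s (R w).2 - I • G 0 (R w).2) =
          G s (R w).1 + I • G s (R w).2 - (G 0 (R w).1 + I • G 0 (R w).2) by abel, h0]
      have hRw : ‖R w‖ ≤ N * ‖w‖ := R.le_opNorm w
      have h2 : ‖(G s - G 0) (R w).1‖ ≤ η₀ * (N * ‖w‖) :=
        ((G s - G 0).le_opNorm _).trans (mul_le_mul (haG s hs)
          ((norm_fst_le (R w)).trans hRw) (norm_nonneg _) hη₀0.le)
      have h3 : ‖(G s - G 0) (R w).2‖ ≤ η₀ * (N * ‖w‖) :=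
        ((G s - G 0).le_opNorm _).trans (mul_le_mul (haG s hs)
          ((norm_snd_le (R w)).trans hRw) (norm_nonneg _) hη₀0.le)
      rw [h1]
      refine (norm_add_le _ _).trans ?_
      rw [norm_smul, norm_I, one_mul]
      have h4 := mul_le_mul_of_nonneg_right hη₀N (norm_nonneg w)
      nlinarith
    have hinj : Function.Injective S := by
      rw [injective_iff_map_eq_zero]
      intro w hw
      have h1 := hSw w
      rw [hw, zero_sub, norm_neg] at h1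
      have : ‖w‖ ≤ 0 := by linarith
      exact norm_le_zero_iff.1 this
    have hsj : Function.Surjective S := by
      have := (LinearMap.injective_iff_surjective (f := S.toLinearMap)).1 hinj
      exact this
    intro w
    obtain ⟨w', hw'⟩ := hsj w
    have h1 : ‖w'‖ ≤ 2 * ‖w‖ := by
      have h2 := hSw w'
      have h3 : ‖w'‖ ≤ ‖S w'‖ + ‖S w' - w'‖ := by
        have := norm_sub_le (S w') (S w' - w')
        simpa using this
      rw [hw'] at h3 h2
      linarith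
    have h2 : ‖R w'‖ ≤ 2 * N * ‖w‖ := by
      calc ‖R w'‖ ≤ N * ‖w'‖ := R.le_opNorm w'
        _ ≤ N * (2 * ‖w‖) := mul_le_mul_of_nonneg_left h1 hN0
        _ = 2 * N * ‖w‖ := by ring
    exact ⟨(R w').1, (R w').2, by rw [← hS', hw'], (norm_fst_le _).trans h2,
      (norm_snd_le _).trans h2⟩
  set C : ℝ := g₁ * (2 * N + 1) with hC
  have hC0 : 0 < C := by positivity
  set e : ℝ := 1 / (4 * (lam + 1)) with he
  have he0 : 0 < e := by positivity
  have hem : e * (4 * (lam + 1)) = 1 := by rw [he]; field_simp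
  obtain ⟨W, hWq, hWo, hW⟩ := hcov (a / 2) (by positivity)
  have hgc : ContinuousOn g (ball 0 a) := fun s hs =>
    (hgd s (hball hs)).continuousAt.continuousWithinAt
  have hgM : ∀ s ∈ ball (0 : ℝ × V) a, g s ∈ U ∧ g s ∈ M ∧ r (g s) = s.1 := by
    intro s hs
    obtain ⟨h1, h2, h3⟩ := hgU s (hball hs)
    exact ⟨h1, (hMU _ h1).2 h2, h3⟩
  have hside := side M D O U hO hD r hfr g a hgc hgM
  refine ⟨C, hC0, e, he0, W ∩ U, inter_mem hWq (hU.mem_nhds hqU), fun κ hκ => ?_⟩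
  -- uniform continuity of the derivative
  have hcb : closedBall (0 : ℝ × V) (3 * a / 4) ⊆ ball 0 a := closedBall_subset_ball (by linarith)
  have huc : UniformContinuousOn G (closedBall (0 : ℝ × V) (3 * a / 4)) := by
    apply (isCompact_closedBall _ _).uniformContinuousOn_of_continuous
    intro s hs
    exact (hGc s (hball (hcb hs))).continuousWithinAt
  obtain ⟨δ₁, hδ₁0, hδ₁⟩ := (Metric.uniformContinuousOn_iff (α := ℝ × V)
    (β := ℝ × V →L[ℝ] X)).1 huc (κ / 2) (by positivity)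
  set δ : ℝ := min (a / 16) (δ₁ / 4) with hδ
  have hδ0 : 0 < δ := by positivity
  have hδa : δ ≤ a / 16 := min_le_left _ _
  have hδδ : δ ≤ δ₁ / 4 := min_le_right _ _
  refine ⟨δ, hδ0, ?_⟩
  rintro p ⟨hpE, hpW, hpU⟩
  have hpM : p ∈ M := hcl hpE
  obtain ⟨s, hs, hsp⟩ := hW p hpW ((hMU p hpU).1 hpM)
  have hsa : s ∈ ball (0 : ℝ × V) a := ball_subset_ball (by linarith) hs
  have hsn : ‖s‖ < a / 2 := by simpa using hs
  -- the good side
  obtain ⟨η, hη, hηs, hηD⟩ : ∃ η : ℝ, (η = 1 ∨ η = -1) ∧ 0 ≤ η * s.1 ∧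
      ∀ s' ∈ ball (0 : ℝ × V) a, 0 < η * s'.1 → g s' ∈ D := by
    have hrp : r p = s.1 := by rw [← hsp]; exact (hgM s hsa).2.2
    rcases lt_trichotomy s.1 0 with h0 | h0 | h0
    · have hpD : p ∈ D := hfr p hpU hpE (by rw [hrp]; exact h0.ne)
      refine ⟨-1, Or.inr rfl, by linarith, hside (-1) ⟨s, hsa, by linarith, by rw [hsp]; exact hpD⟩⟩
    · obtain ⟨p', hp'W, hp'D⟩ := mem_closure_iff_nhds.1 hpE (W ∩ U)
        ((hWo.inter hU).mem_nhds ⟨hpW, hpU⟩)
      have hp'M : p' ∈ M := by rw [hD] at hp'D; exact hp'D.2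
      obtain ⟨s', hs', hs'p⟩ := hW p' hp'W.1 ((hMU p' hp'W.2).1 hp'M)
      have hs'a : s' ∈ ball (0 : ℝ × V) a := ball_subset_ball (by linarith) hs'
      rcases lt_trichotomy s'.1 0 with h1 | h1 | h1
      · exact ⟨-1, Or.inr rfl, by rw [h0]; simp,
          hside (-1) ⟨s', hs'a, by linarith, by rw [hs'p]; exact hp'D⟩⟩
      · -- move off the hypersurface
        have hs'0 : s' + (((0 : ℝ), (0 : V)) : ℝ × V) = s' := by
          rw [show (((0 : ℝ), (0 : V)) : ℝ × V) = 0 from rfl, add_zero]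
        have hts : Tendsto (fun t : ℝ => s' + ((t, 0) : ℝ × V)) (𝓝[>] 0) (𝓝 s') := by
          have h2 : ContinuousAt (fun t : ℝ => s' + ((t, 0) : ℝ × V)) 0 := by fun_prop
          have h3 := h2.tendsto.mono_left (nhdsWithin_le_nhds (s := Ioi 0))
          simpa only [hs'0] using h3
        have hev1 : ∀ᶠ t in 𝓝[>] (0 : ℝ), g (s' + (t, 0)) ∈ O := by
          have h4 : Tendsto g (𝓝 s') (𝓝 (g s')) := (hgd s' (hball hs'a)).continuousAt
          apply (h4.comp hts).eventually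
          rw [hs'p]
          rw [hD] at hp'D
          exact hO.mem_nhds hp'D.1
        have hev2 : ∀ᶠ t in 𝓝[>] (0 : ℝ), s' + ((t, 0) : ℝ × V) ∈ ball (0 : ℝ × V) a :=
          hts.eventually (isOpen_ball.mem_nhds hs'a)
        obtain ⟨t, ht1, ht2, ht0⟩ := (hev1.and (hev2.and self_mem_nhdsWithin)).exists
        refine ⟨1, Or.inl rfl, by rw [h0]; simp, hside 1 ⟨s' + (t, 0), ht2, ?_, ?_⟩⟩
        · simp only [Prod.fst_add, h1]
          have : (0 : ℝ) < t := ht0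
          linarith
        · rw [hD]
          exact ⟨ht1, (hgM _ ht2).2.1⟩
      · exact ⟨1, Or.inl rfl, by rw [h0]; simp,
          hside 1 ⟨s', hs'a, by linarith, by rw [hs'p]; exact hp'D⟩⟩
    · have hpD : p ∈ D := hfr p hpU hpE (by rw [hrp]; exact h0.ne')
      refine ⟨1, Or.inl rfl, by linarith, hside 1 ⟨s, hsa, by linarith, by rw [hsp]; exact hpD⟩⟩
  have hηabs : |η| = 1 := by rcases hη with h | h <;> rw [h] <;> simp
  have hηη : η * η = 1 := by rcases hη with h | h <;> rw [h] <;> norm_num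
  refine ⟨LinearMap.range (G s).toLinearMap, G s (η, 0), ?_, ?_, ?_⟩
  · have h1 : ‖((η, 0) : ℝ × V)‖ = 1 := by
      rw [Prod.norm_def]
      simp [hηabs]
    calc ‖G s (η, 0)‖ ≤ ‖G s‖ * ‖((η, 0) : ℝ × V)‖ := (G s).le_opNorm _
      _ ≤ g₁ * 1 := by rw [h1]; linarith [hGn s hsa]
      _ ≤ C := by
        rw [hC]
        apply mul_le_mul_of_nonneg_left _ hg₁0.le
        linarith
  · intro w
    obtain ⟨h₁, h₂, hw, hn1, hn2⟩ := hdec s hsa w
    have hb : ∀ h : ℝ × V, ‖h‖ ≤ 2 * N * ‖w‖ → ‖G s h‖ ≤ C * ‖w‖ := by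
      intro h hh
      calc ‖G s h‖ ≤ ‖G s‖ * ‖h‖ := (G s).le_opNorm _
        _ ≤ g₁ * (2 * N * ‖w‖) := mul_le_mul (hGn s hsa) hh (norm_nonneg _) hg₁0.le
        _ ≤ C * ‖w‖ := by
          rw [hC]
          nlinarith [mul_nonneg hg₁0.le (norm_nonneg w)]
    exact ⟨G s h₁, ⟨h₁, rfl⟩, G s h₂, ⟨h₂, rfl⟩, hw, hb _ hn1, hb _ hn2⟩
  · intro t ht0 htδ f hf hfn
    obtain ⟨h₁, rfl⟩ := hf
    have hh₁ : ‖h₁‖ ≤ t / 2 := by
      have h2 := hlow s hsa h₁
      have h3 : ‖G s h₁‖ ≤ e * t := hfn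
      have h4 : 2 * lam * ‖G s h₁‖ ≤ 2 * lam * (e * t) :=
        mul_le_mul_of_nonneg_left h3 (by positivity)
      have h5 : 2 * lam * (e * t) ≤ t / 2 := by
        have h6 : lam * e ≤ 1 / 4 := by nlinarith
        nlinarith [mul_le_mul_of_nonneg_right h6 ht0]
      linarith
    rcases ht0.eq_or_lt with h0 | h0
    · refine ⟨p, hpE, ?_⟩
      have h1 : h₁ = 0 := by
        apply norm_le_zero_iff.1
        rw [← h0] at hh₁
        simpa using hh₁
      have h2 : (G s).toLinearMap h₁ = 0 := by rw [h1, map_zero]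
      rw [h2, ← h0]
      simp
    · set h : ℝ × V := (η * t, 0) + h₁ with hh
      have hhn : ‖h‖ ≤ 2 * t := by
        have h1 : ‖((η * t, 0) : ℝ × V)‖ = t := by
          rw [Prod.norm_def]
          simp [abs_mul, hηabs, abs_of_pos h0]
          exact h0.le
        calc ‖h‖ ≤ ‖((η * t, 0) : ℝ × V)‖ + ‖h₁‖ := norm_add_le _ _
          _ ≤ 2 * t := by rw [h1]; linarith
      have hh2δ : ‖h‖ ≤ 2 * δ := hhn.trans (by linarith)
      have hsh : ∀ s' ∈ closedBall s (2 * δ), s' ∈ closedBall (0 : ℝ × V) (3 * a / 4) := by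
        intro s' hs'
        rw [mem_closedBall, dist_eq_norm] at hs'
        rw [mem_closedBall_zero_iff]
        have : ‖s'‖ ≤ ‖s' - s‖ + ‖s‖ := by
          have := norm_add_le (s' - s) s
          simpa using this
        linarith
      have hshm : s + h ∈ closedBall s (2 * δ) := by
        rw [mem_closedBall, dist_eq_norm]
        simpa using hh2δ
      have hsm : s ∈ closedBall s (2 * δ) := mem_closedBall_self (by linarith)
      have hmvt : ‖g (s + h) - g s - G s (s + h - s)‖ ≤ κ / 2 * ‖s + h - s‖ := by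
        apply Convex.norm_image_sub_le_of_norm_hasFDerivWithin_le' (s := closedBall s (2 * δ))
          (f' := G)
        · intro x hx
          exact (hgd x (hball (hcb (hsh x hx)))).hasFDerivWithinAt
        · intro x hx
          have h1 : dist x s < δ₁ := by
            rw [mem_closedBall] at hx
            linarith
          have h2 := hδ₁ x (hsh x hx) s (hsh s hsm) h1
          have h4 : dist (G x) (G s) = ‖G x - G s‖ := dist_eq_norm (G x) (G s)
          exact le_trans (le_of_eq h4.symm) (le_of_lt h2)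
        · exact convex_closedBall _ _
        · exact hsm
        · exact hshm
      rw [add_sub_cancel_left] at hmvt
      refine ⟨g (s + h), subset_closure (hηD _ (hcb (hsh _ hshm)) ?_), ?_⟩
      · have h1 : η * (s + h).1 = η * s.1 + t + η * h₁.1 := by
          simp only [hh, Prod.fst_add]
          have : η * (s.1 + (η * t + h₁.1)) = η * s.1 + (η * η) * t + η * h₁.1 := by ring
          rw [this, hηη]; ring
        have h2 : |η * h₁.1| ≤ t / 2 := by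
          rw [abs_mul, hηabs, one_mul]
          exact (norm_fst_le h₁).trans hh₁
        have h3 := (abs_le.1 h2).1
        rw [h1]
        linarith
      · have h1 : p + (t : ℂ) • G s (η, 0) + (G s).toLinearMap h₁ - g (s + h) =
            -(g (s + h) - g s - G s h) := by
          have h2 : (t : ℂ) • G s (η, 0) = G s ((η * t, 0) : ℝ × V) := by
            rw [Complex.coe_smul, ← map_smul]
            congr 1
            ext
            · simp [mul_comm]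
            · simp
          have h3 : (G s).toLinearMap h₁ = G s h₁ := rfl
          rw [h2, h3, hh, map_add, hsp]
          abel
        rw [h1, norm_neg]
        refine hmvt.trans ?_
        nlinarith

end Pool.Agent.H40.Pluri
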