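import Pool.Agent.H40.Pluri.MP

set_option autoImplicit false

open Set Filter Topology Metric Real Complex ComplexConjugate

namespace Pool.Agent.H40.Pluri

variable {X : Type*} [NormedAddCommGroup X] [InnerProductSpace ℂ X]

lemma circleAverage_log_norm_eq (ζ : ℂ) (ρ : ℝ) (hρ : 0 < ρ) (h : ρ ≤ ‖ζ‖) :
    circleAverage (fun z => Real.log ‖z‖) ζ ρ = Real.log ‖ζ‖ := by
  have h1 := circleAverage_log_norm_sub_const_eq_log_radius_add_posLog (a := 0) (c := ζ)
    (R := ρ) hρ.ne'
  simp only [sub_zero] at h1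
  rw [h1, posLog_eq_log, Real.log_mul (by positivity) (by
    have : 0 < ‖ζ‖ := hρ.trans_le h
    positivity), Real.log_inv]
  · ring
  · rw [abs_of_nonneg (by positivity)]
    rw [inv_mul_eq_div, le_div_iff₀ hρ]
    linarith

/-- Growth lemma (Bernstein–Walsh for a ball). -/
theorem growth [FiniteDimensional ℂ X] (v : X → ℝ) (hv : UpperSemicontinuous v)
    (hsm : SubMean v) (C : ℝ) (hgr : ∀ z, v z ≤ Real.log (1 + ‖z‖) + C)
    (p : X) (r m : ℝ) (hr : 0 < r) (hm : ∀ z ∈ closedBall p r, v z ≤ m)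
    (z : X) (hz : r ≤ ‖z - p‖) : v z ≤ m + Real.log (‖z - p‖ / r) := by
  have hzp : 0 < ‖z - p‖ := hr.trans_le hz
  have key : ∀ ε : ℝ, 0 < ε → v z ≤ m + (1 + ε) * Real.log (‖z - p‖ / r) := by
    intro ε hε
    set e : X := ((‖z - p‖⁻¹ : ℝ) : ℂ) • (z - p) with he
    have hen : ‖e‖ = 1 := by
      rw [he, norm_smul, norm_real, norm_eq_abs, abs_of_pos (by positivity)]
      field_simp
    set T : ℝ := max (max (1 + ‖p‖) (‖z - p‖ + r))
      (Real.exp ((Real.log 2 + C - m + (1 + ε) * Real.log r) / ε)) with hT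
    have hT1 : 1 + ‖p‖ ≤ T := (le_max_left _ _).trans (le_max_left _ _)
    have hT2 : ‖z - p‖ + r ≤ T := (le_max_right _ _).trans (le_max_left _ _)
    have hT0 : 0 < T := by positivity
    have hT3 : Real.log 2 + C - m + (1 + ε) * Real.log r ≤ ε * Real.log T := by
      have h1 : Real.exp ((Real.log 2 + C - m + (1 + ε) * Real.log r) / ε) ≤ T := le_max_right _ _
      have h2 := Real.log_le_log (Real.exp_pos _) h1
      rw [Real.log_exp, div_le_iff₀ hε] at h2
      linarith
    set K : Set ℂ := {ζ | r ≤ ‖ζ‖ ∧ ‖ζ‖ ≤ T} with hK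
    have hKcl : IsClosed K :=
      (isClosed_le continuous_const continuous_norm).inter
        (isClosed_le continuous_norm continuous_const)
    have hKc : IsCompact K := by
      apply (isCompact_closedBall (0 : ℂ) T).of_isClosed_subset hKcl
      intro ζ hζ
      simpa using hζ.2
    set H : ℂ → ℝ := fun ζ => (m - (1 + ε) * Real.log r) + (1 + ε) * Real.log ‖ζ‖ with hH
    have hlogc : ContinuousOn (fun ζ : ℂ => Real.log ‖ζ‖) {ζ | ζ ≠ 0} := by
      apply ContinuousOn.log continuous_norm.continuousOn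
      intro ζ hζ
      simpa using hζ
    have hHc : ContinuousOn H K := by
      apply continuousOn_const.add
      apply continuousOn_const.mul
      apply hlogc.mono
      intro ζ hζ
      have : 0 < ‖ζ‖ := hr.trans_le hζ.1
      simpa using this
    have hHm : ∀ ζ ∈ interior K, ∀ᶠ ρ in 𝓝[>] (0 : ℝ), circleAverage H ζ ρ ≤ H ζ := by
      intro ζ hζ
      have hζK := interior_subset hζ
      have hζ0 : 0 < ‖ζ‖ := hr.trans_le hζK.1
      filter_upwards [Ioo_mem_nhdsGT hζ0] with ρ hρ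
      rw [hH, circleAverage_fun_add (circleIntegrable_const _ _ _), circleAverage_const]
      · have h2 : circleAverage (fun z : ℂ => (1 + ε) * Real.log ‖z‖) ζ ρ =
            (1 + ε) * circleAverage (fun z : ℂ => Real.log ‖z‖) ζ ρ := by
          have := circleAverage_fun_smul (a := (1 + ε)) (f := fun z : ℂ => Real.log ‖z‖)
            (c := ζ) (R := ρ)
          simpa using this
        rw [h2, circleAverage_log_norm_eq ζ ρ hρ.1 hρ.2.le]
      · apply ContinuousOn.circleIntegrable'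
        apply continuousOn_const.mul
        apply hlogc.mono
        intro w hw h0
        simp only [mem_sphere, abs_of_pos hρ.1] at hw
        rw [h0, dist_eq_norm, zero_sub, norm_neg] at hw
        linarith [hρ.2]
    have hbd : ∀ ζ ∈ frontier K, v (p + ζ • e + ζ ^ 2 • (0 : X)) ≤ H ζ := by
      intro ζ hζ
      rw [hKcl.frontier_eq] at hζ
      obtain ⟨hζK, hζi⟩ := hζ
      have hζ0 : 0 < ‖ζ‖ := hr.trans_le hζK.1
      have hcase : ‖ζ‖ = r ∨ ‖ζ‖ = T := by
        by_contra hh
        push Not at hh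
        apply hζi
        rw [mem_interior]
        refine ⟨{ζ | r < ‖ζ‖ ∧ ‖ζ‖ < T}, fun w hw => ⟨hw.1.le, hw.2.le⟩, ?_, ?_⟩
        · exact (isOpen_lt continuous_const continuous_norm).inter
            (isOpen_lt continuous_norm continuous_const)
        · exact ⟨lt_of_le_of_ne hζK.1 (Ne.symm hh.1), lt_of_le_of_ne hζK.2 hh.2⟩
      rw [smul_zero, add_zero]
      have hnorm : ‖ζ • e‖ = ‖ζ‖ := by rw [norm_smul, hen, mul_one]
      rcases hcase with h | h
      · have h1 : v (p + ζ • e) ≤ m := by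
          apply hm
          rw [mem_closedBall, dist_eq_norm, add_sub_cancel_left, hnorm, h]
        simp only [hH, h]
        linarith
      · refine (hgr _).trans ?_
        have h1 : 1 + ‖p + ζ • e‖ ≤ 2 * T := by
          have := norm_add_le p (ζ • e)
          rw [hnorm, h] at this
          linarith
        have h2 : Real.log (1 + ‖p + ζ • e‖) ≤ Real.log 2 + Real.log T := by
          rw [← Real.log_mul (by norm_num) hT0.ne']
          exact Real.log_le_log (by positivity) h1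
        simp only [hH, h]
        nlinarith
    have hfin := maxPrinciple v hv hsm p e 0 K hKc H hHc hHm hbd (‖z - p‖ : ℂ) (by
      simp only [hK, mem_ofPred_eq, norm_real, norm_norm]
      exact ⟨hz, by linarith⟩)
    have e1 : p + (‖z - p‖ : ℂ) • e + (‖z - p‖ : ℂ) ^ 2 • (0 : X) = z := by
      rw [smul_zero, add_zero, he, smul_smul, ← Complex.ofReal_mul,
        mul_inv_cancel₀ hzp.ne']
      simp
    rw [e1] at hfin
    refine hfin.trans ?_
    simp only [hH, norm_real, norm_norm]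
    rw [Real.log_div hzp.ne' hr.ne']
    linarith
  have hlim : Tendsto (fun ε : ℝ => m + (1 + ε) * Real.log (‖z - p‖ / r)) (𝓝[>] 0)
      (𝓝 (m + (1 + 0) * Real.log (‖z - p‖ / r))) :=
    (Continuous.tendsto (by fun_prop) 0).mono_left nhdsWithin_le_nhds
  have := ge_of_tendsto hlim (by
    filter_upwards [self_mem_nhdsWithin] with ε hε
    exact key ε hε)
  simpa using this

/-- The half disc estimate. -/
theorem halfDisc [FiniteDimensional ℂ X] (v : X → ℝ) (hv : UpperSemicontinuous v)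
    (hsm : SubMean v) (p x y ν : X) (s d a b : ℝ) (hs0 : 0 < s) (hs1 : s ≤ 1) (hab : a ≤ b)
    (hseg : ∀ t : ℝ, |t| ≤ 1 →
      v (p + x + ((d * (s ^ 2 + t ^ 2) : ℝ) : ℂ) • ν + ((t / s : ℝ) : ℂ) • y) ≤ a)
    (harc : ∀ ζ : ℂ, ‖ζ‖ = 1 →
      v (p + x + ((d : ℂ) * (s ^ 2 + ζ ^ 2)) • ν + (ζ / s) • y) ≤ b) :
    v (p + x + I • y) ≤ (1 - 2 * s) * a + 2 * s * b := by
  set K : Set ℂ := {ζ | ‖ζ‖ ≤ 1 ∧ 0 ≤ ζ.im} with hK
  have hKcl : IsClosed K :=
    (isClosed_le continuous_norm continuous_const).inter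
      (isClosed_le continuous_const Complex.continuous_im)
  have hKc : IsCompact K := by
    apply (isCompact_closedBall (0 : ℂ) 1).of_isClosed_subset hKcl
    intro ζ hζ
    simpa using hζ.1
  set P : ℂ → ℂ := fun ζ => (b - a) * (ζ ^ 2 - 2 * I * ζ) with hP
  have hPd : Differentiable ℂ P := by fun_prop
  set H : ℂ → ℝ := fun ζ => a + (P ζ).re with hH
  have hHc : Continuous H := continuous_const.add (Complex.continuous_re.comp hPd.continuous)
  have hHval : ∀ ζ : ℂ, H ζ = a + (b - a) * (ζ.re ^ 2 - ζ.im ^ 2 + 2 * ζ.im) := by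
    intro ζ
    simp only [hH, hP]
    have : ((b : ℂ) - a) = ((b - a : ℝ) : ℂ) := by push_cast; ring
    rw [this, Complex.re_ofReal_mul]
    simp [pow_two]
  have hHm : ∀ ζ ∈ interior K, ∀ᶠ ρ in 𝓝[>] (0 : ℝ), circleAverage H ζ ρ ≤ H ζ := by
    intro ζ _
    refine Eventually.of_forall fun ρ => ?_
    rw [circleAverage_eq_circleAverage_zero_one]
    have h1 : circleAverage (fun z : ℂ => H (ρ * z + ζ)) 0 1 =
        circleAverage (fun z : ℂ => a + (P (ρ * z + ζ)).re) 0 1 := rfl
    rw [h1, circleAverage_fun_add (circleIntegrable_const _ _ _), circleAverage_const,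
      circleAverage_re (fun z => P (ρ * z + ζ))]
    · simp [hH]
    · fun_prop
    · apply ContinuousOn.circleIntegrable'
      apply Continuous.continuousOn
      exact Complex.continuous_re.comp (hPd.continuous.comp (by fun_prop))
  have hbd : ∀ ζ ∈ frontier K,
      v ((p + x + ((d * s ^ 2 : ℝ) : ℂ) • ν) + ζ • (((1 / s : ℝ) : ℂ) • y) +
        ζ ^ 2 • ((d : ℂ) • ν)) ≤ H ζ := by
    intro ζ hζ
    rw [hKcl.frontier_eq] at hζ
    obtain ⟨hζK, hζi⟩ := hζ
    have e1 : (p + x + ((d * s ^ 2 : ℝ) : ℂ) • ν) + ζ • (((1 / s : ℝ) : ℂ) • y) +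
        ζ ^ 2 • ((d : ℂ) • ν) = p + x + ((d : ℂ) * (s ^ 2 + ζ ^ 2)) • ν + (ζ / s) • y := by
      push_cast
      module
    rw [e1, hHval]
    have hcase : ‖ζ‖ = 1 ∨ ζ.im = 0 := by
      by_contra hh
      push Not at hh
      apply hζi
      rw [mem_interior]
      refine ⟨{ζ | ‖ζ‖ < 1 ∧ 0 < ζ.im}, fun w hw => ⟨hw.1.le, hw.2.le⟩, ?_, ?_⟩
      · exact (isOpen_lt continuous_norm continuous_const).inter
          (isOpen_lt continuous_const Complex.continuous_im)
      · exact ⟨lt_of_le_of_ne hζK.1 hh.1, lt_of_le_of_ne hζK.2 (Ne.symm hh.2)⟩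
    rcases hcase with h | h
    · refine (harc ζ h).trans ?_
      have h1 : ζ.re ^ 2 + ζ.im ^ 2 = 1 := by
        have := Complex.sq_norm ζ
        rw [h, Complex.normSq_apply] at this
        nlinarith
      have h2 : 0 ≤ ζ.im := hζK.2
      have h3 : ζ.im ≤ 1 := by nlinarith [sq_nonneg ζ.re]
      have h4 : 1 ≤ ζ.re ^ 2 - ζ.im ^ 2 + 2 * ζ.im := by nlinarith
      nlinarith
    · have h0 : ζ = ((ζ.re : ℝ) : ℂ) := by
        apply Complex.ext <;> simp [h]
      have h1 : |ζ.re| ≤ 1 := (Complex.abs_re_le_norm ζ).trans hζK.1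
      have h2 := hseg ζ.re h1
      have e2 : p + x + ((d * (s ^ 2 + ζ.re ^ 2) : ℝ) : ℂ) • ν + ((ζ.re / s : ℝ) : ℂ) • y =
          p + x + ((d : ℂ) * (s ^ 2 + ζ ^ 2)) • ν + (ζ / s) • y := by
        rw [h0]
        push_cast
        simp
      rw [e2] at h2
      refine h2.trans ?_
      rw [h]
      have h3 : 0 ≤ (b - a) * (ζ.re ^ 2) := mul_nonneg (by linarith) (sq_nonneg _)
      nlinarith
  have hfin := maxPrinciple v hv hsm _ _ _ K hKc H hHc.continuousOn hHm hbd (s * I) (by
    simp only [hK, mem_ofPred_eq]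
    constructor
    · rw [norm_mul, norm_real, norm_eq_abs, abs_of_pos hs0]
      simpa using hs1
    · simp [hs0.le])
  have e3 : (p + x + ((d * s ^ 2 : ℝ) : ℂ) • ν) + ((s : ℂ) * I) • (((1 / s : ℝ) : ℂ) • y) +
        ((s : ℂ) * I) ^ 2 • ((d : ℂ) • ν) = p + x + I • y := by
    have h1 : ((s : ℂ) * I) * ((1 / s : ℝ) : ℂ) = I := by
      have : (s : ℂ) ≠ 0 := by exact_mod_cast hs0.ne'
      push_cast
      field_simp
    have h2 : ((s : ℂ) * I) ^ 2 * (d : ℂ) = -((d * s ^ 2 : ℝ) : ℂ) := by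
      rw [mul_pow, I_sq]
      push_cast
      ring
    rw [smul_smul, smul_smul, h1, h2]
    module
  rw [e3, hHval] at hfin
  refine hfin.trans ?_
  simp
  nlinarith [mul_nonneg (sub_nonneg.2 hab) (sq_nonneg s)]

end Pool.Agent.H40.Pluri
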