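import Pool.Agent.H40.Pluri.Growth

set_option autoImplicit false

open Set Filter Topology Metric Real Complex ComplexConjugate

namespace Pool.Agent.H40.Pluri

/-- Random walk with drift: a comparison with the supersolution `q ^ j`. -/
lemma iter (m : ℕ → ℝ) (hanti : Antitone m) (hpos : ∀ j, 0 ≤ m j)
    (hlim : Tendsto m atTop (𝓝 0)) (c : ℕ) (θ q : ℝ) (hθ0 : 0 ≤ θ) (hθ1 : θ ≤ 1)
    (hq0 : 0 < q) (hq1 : q < 1) (hsup : (1 - θ) * q ^ (c + 1) + θ < q ^ c)
    (hrec : ∀ j, m (j + c) ≤ (1 - θ) * m (j + c + 1) + θ * m j) (j : ℕ) :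
    m j * q ^ c ≤ m 0 * q ^ j := by
  rcases (hpos 0).eq_or_lt with h0 | h0
  · have h1 : m j ≤ 0 := by rw [h0]; exact hanti (Nat.zero_le j)
    have h2 : m j = 0 := le_antisymm h1 (hpos j)
    rw [h2, ← h0]; simp
  have hqc : 0 < q ^ c := pow_pos hq0 c
  set K := m 0 / q ^ c with hK
  have hK0 : 0 < K := div_pos h0 hqc
  have hKq : K * q ^ c = m 0 := by rw [hK]; field_simp
  have key : ∀ ε : ℝ, 0 < ε → ∀ j, m j ≤ ε + K * q ^ j := by
    intro ε hε
    by_contra hcon
    push Not at hcon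
    obtain ⟨j₁, hj₁⟩ := hcon
    obtain ⟨N, hN⟩ := (eventually_atTop.1 (hlim.eventually_lt_const hε))
    set d : ℕ → ℝ := fun j => m j - (ε + K * q ^ j) with hd
    have hne : (Finset.range (max N (j₁ + 1))).Nonempty :=
      ⟨j₁, Finset.mem_range.2 (by omega)⟩
    obtain ⟨J, hJ, hmax⟩ := Finset.exists_max_image _ d hne
    have hS : 0 < d J := by
      have h1 := hmax j₁ (Finset.mem_range.2 (by omega))
      have h2 : 0 < d j₁ := by simp only [hd]; linarith
      linarith
    have hall : ∀ i, d i ≤ d J := by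
      intro i
      by_cases hi : i < max N (j₁ + 1)
      · exact hmax i (Finset.mem_range.2 hi)
      · have h1 := hN i (by omega)
        have h2 : 0 < K * q ^ i := by positivity
        have h3 : d i ≤ 0 := by simp only [hd]; linarith
        linarith
    have hJc : c < J := by
      by_contra hh
      push Not at hh
      have h1 : q ^ c ≤ q ^ J := pow_le_pow_of_le_one hq0.le hq1.le hh
      have h2 : m J ≤ m 0 := hanti (Nat.zero_le J)
      have h3 : K * q ^ c ≤ K * q ^ J := mul_le_mul_of_nonneg_left h1 hK0.le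
      simp only [hd] at hS
      linarith
    obtain ⟨i, rfl⟩ : ∃ i, J = i + c := ⟨J - c, by omega⟩
    have h1 := hrec i
    have h2 := hall (i + c + 1)
    have h3 := hall i
    simp only [hd] at h2 h3 hS
    have h4 : m (i + c + 1) ≤ (m (i + c) - (ε + K * q ^ (i + c))) + (ε + K * q ^ (i + c + 1)) := by
      linarith
    have h5 : m i ≤ (m (i + c) - (ε + K * q ^ (i + c))) + (ε + K * q ^ i) := by linarith
    have h6 : (1 - θ) * m (i + c + 1) ≤ (1 - θ) *
        ((m (i + c) - (ε + K * q ^ (i + c))) + (ε + K * q ^ (i + c + 1))) :=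
      mul_le_mul_of_nonneg_left h4 (by linarith)
    have h7 : θ * m i ≤ θ * ((m (i + c) - (ε + K * q ^ (i + c))) + (ε + K * q ^ i)) :=
      mul_le_mul_of_nonneg_left h5 hθ0
    have h8 : 0 < K * q ^ i := by positivity
    have h9 : (K * q ^ i) * ((1 - θ) * q ^ (c + 1) + θ) < (K * q ^ i) * q ^ c :=
      mul_lt_mul_of_pos_left hsup h8
    have e1 : q ^ (i + c + 1) = q ^ i * q ^ (c + 1) := by ring
    have e2 : q ^ (i + c) = q ^ i * q ^ c := by ring
    rw [e1, e2] at h6
    rw [e2] at h7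
    nlinarith
  have h1 : m j ≤ K * q ^ j := by
    apply le_of_forall_pos_le_add
    intro ε hε
    linarith [key ε hε j]
  calc m j * q ^ c ≤ (K * q ^ j) * q ^ c := mul_le_mul_of_nonneg_right h1 hqc.le
    _ = m 0 * q ^ j := by rw [← hKq]; ring

lemma params (C e : ℝ) (hC : 0 < C) (he : 0 < e) :
    ∃ (s : ℝ) (c : ℕ) (q : ℝ), 0 < s ∧ 2 * s ≤ 1 ∧
      C * (1 + 1 / s + 4 * C / (e * s ^ 2)) ≤ 2 ^ c ∧ 0 < q ∧ q < 1 ∧
      (1 - 2 * s) * q ^ (c + 1) + 2 * s < q ^ c := by
  obtain ⟨k', hk'⟩ := pow_unbounded_of_one_lt (C * (2 + 4 * C / e)) (by norm_num : (1 : ℝ) < 2)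
  have hlim : Tendsto (fun k : ℕ => 6 * ((k' + 2) * (1 / 2 : ℝ) ^ k + 2 * (k * (1 / 2 : ℝ) ^ k)))
      atTop (𝓝 (6 * ((k' + 2) * 0 + 2 * 0))) := by
    apply Tendsto.const_mul
    apply Tendsto.add
    · exact (tendsto_pow_atTop_nhds_zero_of_lt_one (by norm_num) (by norm_num)).const_mul _
    · exact (tendsto_self_mul_const_pow_of_lt_one (by norm_num) (by norm_num)).const_mul _
  have hev := (hlim.eventually_lt_const (u := (1 : ℝ)) (by norm_num)).and
    (eventually_ge_atTop 1)
  obtain ⟨k, hk, hk1⟩ := hev.exists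
  set s : ℝ := (1 / 2) ^ k with hs
  have hs0 : 0 < s := by positivity
  have hs2 : 2 * s ≤ 1 := by
    have : (1 / 2 : ℝ) ^ k ≤ (1 / 2) ^ 1 := pow_le_pow_of_le_one (by norm_num) (by norm_num) hk1
    rw [hs]; linarith
  have hs1 : s ≤ 1 := by linarith
  set c : ℕ := k' + 2 * k with hc
  have hc1 : 1 ≤ c := by omega
  have hcpos : (0 : ℝ) < c := by exact_mod_cast hc1
  have h6 : 6 * s * (c + 1) < 1 := by
    have : 6 * s * ((c : ℝ) + 1) ≤ 6 * ((k' + 2) * s + 2 * (k * s)) := by
      rw [hc]; push_cast; nlinarith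
    exact this.trans_lt hk
  have hinv : 1 / s ^ 2 = 2 ^ (2 * k) := by
    rw [hs]
    rw [← pow_mul, one_div_pow, one_div_one_div, mul_comm]
  refine ⟨s, c, c / (c + 1), hs0, hs2, ?_, by positivity, ?_, ?_⟩
  · calc C * (1 + 1 / s + 4 * C / (e * s ^ 2)) ≤ C * ((2 + 4 * C / e) * (1 / s ^ 2)) := by
          apply mul_le_mul_of_nonneg_left _ hC.le
          have h1 : (1 : ℝ) ≤ 1 / s ^ 2 := by
            rw [le_div_iff₀ (by positivity)]
            nlinarith
          have h2 : 1 / s ≤ 1 / s ^ 2 := by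
            apply one_div_le_one_div_of_le (by positivity)
            nlinarith
          have h3 : 4 * C / (e * s ^ 2) = 4 * C / e * (1 / s ^ 2) := by
            field_simp
          rw [h3]
          nlinarith
      _ = C * (2 + 4 * C / e) * 2 ^ (2 * k) := by rw [hinv]; ring
      _ ≤ 2 ^ k' * 2 ^ (2 * k) := by
          apply mul_le_mul_of_nonneg_right hk'.le (by positivity)
      _ = 2 ^ c := by rw [hc, pow_add]
  · rw [div_lt_one (by positivity)]
    linarith
  · set q : ℝ := c / (c + 1) with hq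
    have hq0 : 0 < q := by positivity
    have hqc : 1 / 3 < q ^ c := by
      have h1 : (1 + 1 / (c : ℝ)) ^ c ≤ Real.exp 1 := by
        have h2 : 1 + 1 / (c : ℝ) ≤ Real.exp (1 / c) := by
          have := Real.add_one_le_exp (1 / (c : ℝ))
          linarith
        calc (1 + 1 / (c : ℝ)) ^ c ≤ (Real.exp (1 / c)) ^ c :=
              pow_le_pow_left₀ (by positivity) h2 c
          _ = Real.exp 1 := by
              rw [← Real.exp_nat_mul]
              congr 1
              field_simp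
      have h3 : Real.exp 1 < 3 := by
        have := Real.exp_one_lt_d9
        linarith
      have h4 : q = (1 + 1 / (c : ℝ))⁻¹ := by
        rw [hq]; field_simp
      rw [h4, inv_pow, one_div, inv_lt_inv₀ (by norm_num) (by positivity)]
      linarith
    have h5 : q ^ (c + 1) = q ^ c * (1 - 1 / (c + 1)) := by
      rw [pow_succ]
      congr 1
      rw [hq]; field_simp; ring
    rw [h5]
    have h7 : q ^ c * (2 * s + (1 - 2 * s) * (1 / (c + 1))) > 2 * s := by
      have h8 : (0 : ℝ) < 2 * s + (1 - 2 * s) * (1 / (c + 1)) := by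
        have : 0 ≤ (1 - 2 * s) * (1 / ((c : ℝ) + 1)) := by
          apply mul_nonneg (by linarith) (by positivity)
        linarith
      have h9 : 1 / 3 * (2 * s + (1 - 2 * s) * (1 / (c + 1))) ≥ 2 * s := by
        have h10 : (1 - 2 * s) * (1 / ((c : ℝ) + 1)) ≥ 4 * s := by
          rw [mul_one_div, ge_iff_le, le_div_iff₀ (by positivity)]
          nlinarith
        linarith
      nlinarith [mul_lt_mul_of_pos_right hqc h8]
    nlinarith

variable {X : Type*} [NormedAddCommGroup X] [InnerProductSpace ℂ X]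

/-- Uniform one-sided flatness of `E`, at all points and with uniform constants. -/
def PropP (E : Set X) (C e : ℝ) : Prop :=
  ∀ κ : ℝ, 0 < κ → ∃ δ : ℝ, 0 < δ ∧ ∀ p ∈ E, ∃ (T : Submodule ℝ X) (ν : X), ‖ν‖ ≤ C ∧
    (∀ w : X, ∃ x ∈ T, ∃ y ∈ T, w = x + I • y ∧ ‖x‖ ≤ C * ‖w‖ ∧ ‖y‖ ≤ C * ‖w‖) ∧
    ∀ t : ℝ, 0 ≤ t → t ≤ δ → ∀ f ∈ T, ‖f‖ ≤ e * t → ∃ q ∈ E, ‖p + (t : ℂ) • ν + f - q‖ ≤ κ * t

/-- Nonnegative usc functions of logarithmic growth, subharmonic on complex lines and vanishing
on `E`. -/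
structure Good (E : Set X) (v : X → ℝ) : Prop where
  usc : UpperSemicontinuous v
  sm : SubMean v
  nonneg : ∀ z, 0 ≤ v z
  onE : ∀ z ∈ E, v z ≤ 0
  gr : ∃ C, ∀ z, v z ≤ Real.log (1 + ‖z‖) + C

theorem uniform [FiniteDimensional ℂ X] (E : Set X) (hE : IsCompact E) (hne : E.Nonempty)
    (C e : ℝ) (hC : 0 < C) (he : 0 < e) (hP : PropP E C e) :
    ∃ r₀ B q : ℝ, 0 < r₀ ∧ 0 ≤ B ∧ 0 < q ∧ q < 1 ∧
      ∀ j : ℕ, ∀ v, Good E v → ∀ z ∈ cthickening (r₀ / 2 ^ j) E, v z ≤ B * q ^ j := by
  have : ProperSpace X := FiniteDimensional.proper ℂ X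
  obtain ⟨s, c, q, hs0, hs2, hsc, hq0, hq1, hsup⟩ := params C e hC he
  set κ : ℝ := e * s ^ 2 / (8 * C) with hκ
  have hκ0 : 0 < κ := by positivity
  obtain ⟨δ, hδ0, hδ⟩ := hP κ hκ0
  set r₀ : ℝ := e * s ^ 2 * δ / (4 * C) with hr₀
  have hr₀0 : 0 < r₀ := by positivity
  set r : ℕ → ℝ := fun j => r₀ / 2 ^ j with hr
  have hrpos : ∀ j, 0 < r j := fun j => by simp only [hr]; positivity
  have hrsucc : ∀ j, r (j + 1) = r j / 2 := fun j => by simp only [hr, pow_succ]; field_simp
  have hradd : ∀ j c, 2 ^ c * r (j + c) = r j := fun j c => by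
    simp only [hr, pow_add]; field_simp
  have hrle : ∀ j, r j ≤ r₀ := fun j => by
    simp only [hr]
    apply div_le_self hr₀0.le
    exact one_le_pow₀ (by norm_num)
  have hranti : Antitone r := by
    apply antitone_nat_of_succ_le
    intro j
    rw [hrsucc]
    linarith [hrpos j]
  set N : ℕ → Set X := fun j => cthickening (r j) E with hN
  have hNc : ∀ j, IsCompact (N j) := fun j => hE.cthickening
  have hNne : ∀ j, (N j).Nonempty := fun j => hne.mono (self_subset_cthickening E)
  have hNanti : ∀ i j, i ≤ j → N j ⊆ N i := fun i j hij => cthickening_mono (hranti hij) E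
  have hmemN : ∀ j z, z ∈ N j → ∃ p ∈ E, ‖z - p‖ ≤ r j := by
    intro j z hz
    simp only [hN] at hz
    rw [hE.cthickening_eq_biUnion_closedBall (hrpos j).le] at hz
    simp only [mem_iUnion, exists_prop] at hz
    obtain ⟨p, hp, hzp⟩ := hz
    exact ⟨p, hp, by rwa [mem_closedBall, dist_eq_norm] at hzp⟩
  have hNmem : ∀ j z p, p ∈ E → ‖z - p‖ ≤ r j → z ∈ N j := by
    intro j z p hp hzp
    exact mem_cthickening_of_dist_le z p (r j) E hp (by rwa [dist_eq_norm])
  -- uniform estimates for a good function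
  have main : ∀ v, Good E v → ∃ m : ℕ → ℝ, Antitone m ∧ (∀ j, 0 ≤ m j) ∧
      (∀ j, ∀ z ∈ N j, v z ≤ m j) ∧ (∀ j, m j * q ^ c ≤ m 0 * q ^ j) ∧
      (∀ J : ℕ, m 0 ≤ m J + J * Real.log 2) := by
    intro v hv
    set m : ℕ → ℝ := fun j => sSup (v '' N j) with hm
    have hbdd : ∀ j, BddAbove (v '' N j) := fun j =>
      (hv.usc.upperSemicontinuousOn _).bddAbove_of_isCompact (hNc j)
    have hle : ∀ j, ∀ z ∈ N j, v z ≤ m j := fun j z hz => le_csSup (hbdd j) ⟨z, hz, rfl⟩
    have hsup' : ∀ j a, (∀ z ∈ N j, v z ≤ a) → m j ≤ a := by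
      intro j a h
      apply csSup_le ((hNne j).image v)
      rintro _ ⟨z, hz, rfl⟩
      exact h z hz
    have hpos : ∀ j, 0 ≤ m j := by
      intro j
      obtain ⟨z, hz⟩ := hNne j
      exact (hv.nonneg z).trans (hle j z hz)
    have hanti : Antitone m := by
      intro i j hij
      exact hsup' j _ fun z hz => hle i z (hNanti i j hij hz)
    have hlim : Tendsto m atTop (𝓝 0) := by
      rw [Metric.tendsto_atTop]
      intro ε hε
      have hopen : IsOpen (v ⁻¹' Iio (ε / 2)) := hv.usc.isOpen_preimage _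
      obtain ⟨δ', hδ'0, hδ'⟩ := hE.exists_cthickening_subset_open hopen (fun z hz => by
        have := hv.onE z hz
        simp only [mem_preimage, mem_Iio]
        linarith)
      obtain ⟨n, hn⟩ := pow_unbounded_of_one_lt (r₀ / δ') (by norm_num : (1 : ℝ) < 2)
      refine ⟨n, fun j hj => ?_⟩
      have h1 : r j ≤ δ' := by
        refine (hranti hj).trans ?_
        simp only [hr]
        rw [div_le_iff₀ (by positivity)]
        rw [div_lt_iff₀ hδ'0] at hn
        linarith
      have h2 : m j ≤ ε / 2 := by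
        apply hsup'
        intro z hz
        have := hδ' (cthickening_mono h1 E hz)
        simp only [mem_preimage, mem_Iio] at this
        exact this.le
      rw [Real.dist_eq, sub_zero, abs_of_nonneg (hpos j)]
      linarith
    have hrec : ∀ j, m (j + c) ≤ (1 - 2 * s) * m (j + c + 1) + 2 * s * m j := by
      intro j
      apply hsup'
      intro z hz
      obtain ⟨p, hp, hzp⟩ := hmemN _ _ hz
      obtain ⟨T, ν, hν, hdec, hcone⟩ := hδ p hp
      obtain ⟨x, hx, y, hy, hw, hxn, hyn⟩ := hdec (z - p)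
      set ρ := r (j + c) with hρ
      have hρ0 : 0 < ρ := hrpos _
      set d : ℝ := 2 * C * ρ / (e * s ^ 2) with hd
      have hd0 : 0 < d := by positivity
      have hed : e * d * s ^ 2 = 2 * C * ρ := by rw [hd]; field_simp
      have hxρ : ‖x‖ ≤ C * ρ := hxn.trans (mul_le_mul_of_nonneg_left hzp hC.le)
      have hyρ : ‖y‖ ≤ C * ρ := hyn.trans (mul_le_mul_of_nonneg_left hzp hC.le)
      have hdδ : 2 * d ≤ δ := by
        have h1 : ρ ≤ r₀ := hrle _
        have h2 : 2 * (2 * C * r₀ / (e * s ^ 2)) = δ := by rw [hr₀]; field_simp; norm_num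
        have h3 : d ≤ 2 * C * r₀ / (e * s ^ 2) := by
          rw [hd]
          gcongr
        linarith
      have hκd : κ * (2 * d) = ρ / 2 := by rw [hκ, hd]; field_simp; norm_num
      have hz' : z = p + x + I • y := by
        have : z = p + (z - p) := by abel
        rw [this, hw]; abel
      rw [hz']
      apply halfDisc v hv.usc hv.sm p x y ν s d (m (j + c + 1)) (m j) hs0 (by linarith)
        (hanti (by omega))
      · intro t ht
        have ht2 : t ^ 2 ≤ 1 := by
          rw [← sq_abs]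
          nlinarith [abs_nonneg t]
        set τ : ℝ := d * (s ^ 2 + t ^ 2) with hτ
        have hs21 : s ^ 2 ≤ 1 := by nlinarith
        have hτ0 : 0 ≤ τ := by positivity
        have hτ1 : τ ≤ 2 * d := by
          rw [hτ]
          nlinarith
        have hf : x + ((t / s : ℝ) : ℂ) • y ∈ T := by
          apply T.add_mem hx
          have := T.smul_mem (t / s) hy
          rwa [← Complex.coe_smul] at this
        have hfn : ‖x + ((t / s : ℝ) : ℂ) • y‖ ≤ e * τ := by
          have h1 : ‖x + ((t / s : ℝ) : ℂ) • y‖ ≤ C * ρ + |t| / s * (C * ρ) := by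
            refine (norm_add_le _ _).trans ?_
            apply add_le_add hxρ
            rw [norm_smul, norm_real, norm_eq_abs, abs_div, abs_of_pos hs0]
            exact mul_le_mul_of_nonneg_left hyρ (by positivity)
          have h2 : e * τ = 2 * C * ρ * (1 + (|t| / s) ^ 2) := by
            have : e * τ = (e * d * s ^ 2) * (1 + (t / s) ^ 2) := by
              rw [hτ]; field_simp
            rw [this, hed, div_pow, div_pow, sq_abs]
          rw [h2]
          have h3 : |t| / s ≤ (1 + (|t| / s) ^ 2) / 2 := by nlinarith [sq_nonneg (|t| / s - 1)]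
          have h4 : 0 < C * ρ := by positivity
          refine h1.trans ?_
          nlinarith [mul_le_mul_of_nonneg_left h3 h4.le, sq_nonneg (|t| / s)]
        obtain ⟨q', hq', hqn⟩ := hcone τ hτ0 (hτ1.trans hdδ) _ hf hfn
        apply hle
        apply hNmem _ _ q' hq'
        have e1 : p + x + (τ : ℂ) • ν + ((t / s : ℝ) : ℂ) • y - q' =
            p + (τ : ℂ) • ν + (x + ((t / s : ℝ) : ℂ) • y) - q' := by abel
        rw [e1]
        refine hqn.trans ?_
        have h5 : κ * τ ≤ κ * (2 * d) := mul_le_mul_of_nonneg_left hτ1 hκ0.le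
        rw [hrsucc]
        linarith
      · intro ζ hζ
        apply hle
        apply hNmem _ _ p hp
        have e1 : p + x + ((d : ℂ) * (s ^ 2 + ζ ^ 2)) • ν + (ζ / s) • y - p =
            x + ((d : ℂ) * (s ^ 2 + ζ ^ 2)) • ν + (ζ / s) • y := by abel
        rw [e1]
        have h1 : ‖((d : ℂ) * (s ^ 2 + ζ ^ 2)) • ν‖ ≤ 2 * d * C := by
          rw [norm_smul, norm_mul, norm_real, norm_eq_abs, abs_of_pos hd0]
          have h2 : ‖(s : ℂ) ^ 2 + ζ ^ 2‖ ≤ 2 := by
            refine (norm_add_le _ _).trans ?_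
            rw [norm_pow, norm_pow, hζ, norm_real, norm_eq_abs, abs_of_pos hs0]
            nlinarith
          calc d * ‖(s : ℂ) ^ 2 + ζ ^ 2‖ * ‖ν‖ ≤ d * 2 * C := by gcongr
            _ = 2 * d * C := by ring
        have h2 : ‖(ζ / s) • y‖ ≤ C * ρ / s := by
          rw [norm_smul, norm_div, hζ, norm_real, norm_eq_abs, abs_of_pos hs0]
          calc 1 / s * ‖y‖ ≤ 1 / s * (C * ρ) := by gcongr
            _ = C * ρ / s := by ring
        have h3 : ‖x + ((d : ℂ) * (s ^ 2 + ζ ^ 2)) • ν + (ζ / s) • y‖ ≤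
            C * ρ + 2 * d * C + C * ρ / s :=
          (norm_add_le _ _).trans (add_le_add ((norm_add_le _ _).trans (add_le_add hxρ h1)) h2)
        refine h3.trans ?_
        have h4 : C * ρ + 2 * d * C + C * ρ / s = C * (1 + 1 / s + 4 * C / (e * s ^ 2)) * ρ := by
          rw [hd]; field_simp; ring
        rw [h4, ← hradd j c]
        exact mul_le_mul_of_nonneg_right hsc hρ0.le
    refine ⟨m, hanti, hpos, hle, ?_, ?_⟩
    · exact iter m hanti hpos hlim c (2 * s) q (by linarith) hs2 hq0 hq1 hsup hrec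
    · intro J
      apply hsup'
      intro z hz
      obtain ⟨p, hp, hzp⟩ := hmemN _ _ hz
      have hlog : 0 ≤ (J : ℝ) * Real.log 2 := by positivity
      rcases le_or_gt ‖z - p‖ (r J) with h | h
      · have := hle J z (hNmem J z p hp h)
        linarith
      · obtain ⟨Cv, hCv⟩ := hv.gr
        have h1 := growth v hv.usc hv.sm Cv hCv p (r J) (m J) (hrpos J)
          (fun w hw => hle J w (hNmem J w p hp (by rwa [mem_closedBall, dist_eq_norm] at hw)))
          z h.le
        have h2 : Real.log (‖z - p‖ / r J) ≤ J * Real.log 2 := by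
          have h3 : ‖z - p‖ / r J ≤ 2 ^ J := by
            rw [div_le_iff₀ (hrpos J)]
            have h4 := hradd 0 J
            rw [zero_add] at h4
            rw [h4]
            exact hzp
          have h5 : 0 < ‖z - p‖ / r J := div_pos ((hrpos J).trans h) (hrpos J)
          calc Real.log (‖z - p‖ / r J) ≤ Real.log (2 ^ J) := Real.log_le_log h5 h3
            _ = J * Real.log 2 := by rw [Real.log_pow]
        linarith
  -- choose J
  have hqc : 0 < q ^ c := pow_pos hq0 c
  obtain ⟨J, hJ⟩ := exists_pow_lt_of_lt_one (half_pos hqc) hq1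
  set B : ℝ := 2 * (J * Real.log 2) with hB
  have hB0 : 0 ≤ B := by positivity
  refine ⟨r₀, B / q ^ c, q, hr₀0, by positivity, hq0, hq1, fun i v hv z hz => ?_⟩
  obtain ⟨m, hanti, hpos, hle, hit, hgr⟩ := main v hv
  have h1 : m 0 ≤ B := by
    have h2 := hit J
    have h3 := hgr J
    have h4 : m 0 * q ^ J ≤ m 0 * (q ^ c / 2) := mul_le_mul_of_nonneg_left hJ.le (hpos 0)
    have h5 : m J * q ^ c ≤ (m 0 / 2) * q ^ c := by linarith
    have h6 : m J ≤ m 0 / 2 := le_of_mul_le_mul_right h5 hqc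
    linarith
  have h7 : m i * q ^ c ≤ (B / q ^ c * q ^ i) * q ^ c := by
    calc m i * q ^ c ≤ m 0 * q ^ i := hit i
      _ ≤ B * q ^ i := mul_le_mul_of_nonneg_right h1 (pow_pos hq0 i).le
      _ = (B / q ^ c * q ^ i) * q ^ c := by field_simp
  exact (hle i z hz).trans (le_of_mul_le_mul_right h7 hqc)

end Pool.Agent.H40.Pluri
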