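import Mathlib

set_option autoImplicit false

open Set Filter Topology Metric Real Complex ComplexConjugate

namespace Pool.Agent.H40.Pluri

variable {X : Type*} [NormedAddCommGroup X] [InnerProductSpace ℂ X]

/-- The sub-mean value inequality on the circles of complex lines, for a real function,
tested against continuous majorants. -/
def SubMean (v : X → ℝ) : Prop :=
  ∀ a b : X, ∀ g : ℂ → ℝ, ContinuousOn g (sphere 0 1) →
    (∀ s ∈ sphere (0 : ℂ) 1, v (a + s • b) ≤ g s) → v a ≤ circleAverage g 0 1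

/-- circle average of the real part of an entire function on the unit circle -/
lemma circleAverage_re (P : ℂ → ℂ) (hP : Differentiable ℂ P) :
    circleAverage (fun s => (P s).re) 0 1 = (P 0).re := by
  have h1 : circleAverage P 0 1 = P 0 :=
    DiffContOnCl.circleAverage (hP.diffContOnCl)
  have h2 := Complex.reCLM.circleAverage_comp_comm (f := P) (c := 0) (R := 1)
    (hP.continuous.continuousOn.circleIntegrable')
  rw [h1] at h2
  exact h2

lemma norm_sub_sq_circle (w c : X) (s : ℂ) (hs : s ∈ sphere (0 : ℂ) 1) :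
    ‖w - s ^ 2 • c‖ ^ 2 = ‖w‖ ^ 2 + ‖c‖ ^ 2 - 2 * (s ^ 2 * inner ℂ w c).re := by
  have h1 : ‖s‖ = 1 := by simpa using hs
  rw [@norm_sub_sq ℂ, inner_smul_right, norm_smul, norm_pow, h1]
  simp
  ring

lemma norm_add_sq_circle (z : ℂ) (ρ : ℝ) (s : ℂ) (hs : s ∈ sphere (0 : ℂ) 1) :
    ‖z + ρ * s‖ ^ 2 = ‖z‖ ^ 2 + ρ ^ 2 + 2 * (s * (ρ * conj z)).re := by
  have h1 : ‖s‖ = 1 := by simpa using hs
  rw [@norm_add_sq ℂ, norm_mul, h1]
  simp only [norm_real, norm_eq_abs, mul_one, sq_abs]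
  have : inner ℂ z (ρ * s) = s * (ρ * conj z) := by
    simp [inner]
    ring
  rw [this]
  simp
  ring

/-- Maximum principle along a quadratic polynomial disc. -/
theorem maxPrinciple [FiniteDimensional ℂ X] (v : X → ℝ) (hv : UpperSemicontinuous v)
    (hsm : SubMean v)
    (α β γ : X) (K : Set ℂ) (hK : IsCompact K) (H : ℂ → ℝ) (hH : ContinuousOn H K)
    (hHm : ∀ ζ ∈ interior K, ∀ᶠ ρ in 𝓝[>] (0 : ℝ), circleAverage H ζ ρ ≤ H ζ)
    (hbd : ∀ ζ ∈ frontier K, v (α + ζ • β + ζ ^ 2 • γ) ≤ H ζ) :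
    ∀ ζ ∈ K, v (α + ζ • β + ζ ^ 2 • γ) ≤ H ζ := by
  by_contra hcon
  push Not at hcon
  obtain ⟨ζ₀, hζ₀, hgap⟩ := hcon
  set F : ℂ → X := fun ζ => α + ζ • β + ζ ^ 2 • γ with hF
  have hFc : Continuous F := by fun_prop
  -- radius
  obtain ⟨R, hR⟩ := hK.isBounded.subset_closedBall (0 : ℂ)
  set δ := v (F ζ₀) - H ζ₀ with hδ
  have hδ0 : 0 < δ := sub_pos.2 hgap
  set ε := δ / (2 * (R ^ 2 + 1)) with hε
  have hR1 : 0 < R ^ 2 + 1 := by positivity
  have hε0 : 0 < ε := by positivity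
  have hεR : ε * R ^ 2 ≤ δ / 2 := by
    rw [hε, div_mul_eq_mul_div, div_le_div_iff₀ (by positivity) (by positivity)]
    nlinarith
  -- the function G
  set Ω : Set (ℂ × X) := K ×ˢ closedBall (0 : X) 1 with hΩ
  have : ProperSpace X := FiniteDimensional.proper ℂ X
  have hΩc : IsCompact Ω := hK.prod (isCompact_closedBall _ _)
  set G : ℂ × X → ℝ := fun q => v (F q.1 + q.2) + -H q.1 with hG
  have hGu : UpperSemicontinuousOn G Ω := by
    apply UpperSemicontinuousOn.add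
    · have : Continuous (fun q : ℂ × X => F q.1 + q.2) := by fun_prop
      exact (hv.comp this).upperSemicontinuousOn _
    · apply ContinuousOn.upperSemicontinuousOn
      exact (hH.comp continuousOn_fst (fun q hq => hq.1)).neg
  obtain ⟨B, hB⟩ := hGu.bddAbove_of_isCompact hΩc
  have hB' : ∀ q ∈ Ω, G q ≤ B := fun q hq => hB ⟨q, hq, rfl⟩
  -- the tube lemma
  obtain ⟨τ, hτ0, hτ1, hτ⟩ : ∃ τ : ℝ, 0 < τ ∧ τ ≤ 1 ∧
      ∀ q ∈ Ω, q.1 ∈ frontier K → ‖q.2‖ < τ → G q < δ / 2 := by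
    set S : Set (ℂ × X) := (frontier K ×ˢ closedBall (0 : X) 1) ∩ G ⁻¹' Ici (δ / 2) with hS
    have hfr : frontier K ⊆ K := hK.isClosed.frontier_subset
    have hsub : frontier K ×ˢ closedBall (0 : X) 1 ⊆ Ω := prod_mono_left hfr
    have hSc : IsCompact S := by
      apply (hGu.mono hsub).isCompact_inter_preimage_Ici
      exact (hK.of_isClosed_subset isClosed_frontier hfr).prod (isCompact_closedBall _ _)
    by_cases hne : S.Nonempty
    · obtain ⟨q₀, hq₀, hmin⟩ := hSc.exists_isMinOn hne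
        (f := fun q : ℂ × X => ‖q.2‖) (by fun_prop)
      refine ⟨‖q₀.2‖, ?_, ?_, ?_⟩
      · rw [norm_pos_iff]
        intro h0
        have h1 := hbd q₀.1 hq₀.1.1
        have h2 : δ / 2 ≤ v (F q₀.1 + q₀.2) + -H q₀.1 := hq₀.2
        rw [h0, add_zero] at h2
        have h3 : v (F q₀.1) ≤ H q₀.1 := h1
        linarith
      · simpa using hq₀.1.2
      · intro q hq hqf hqn
        by_contra hh
        push Not at hh
        have : q ∈ S := ⟨⟨hqf, hq.2⟩, hh⟩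
        have := hmin this
        simp only [mem_ofPred_eq] at this
        exact absurd hqn (not_lt.2 this)
    · refine ⟨1, one_pos, le_rfl, ?_⟩
      intro q hq hqf hqn
      by_contra hh
      push Not at hh
      exact hne ⟨q, ⟨⟨hqf, hq.2⟩, hh⟩⟩
  set L : ℝ := (|B| + 1) / τ ^ 2 with hL
  have hL0 : 0 < L := by positivity
  have hLτ : L * τ ^ 2 = |B| + 1 := by rw [hL]; field_simp
  -- maximise Ψ
  set Ψ : ℂ × X → ℝ := fun q => G q + (-(L * ‖q.2‖ ^ 2) + ε * (‖q.1‖ ^ 2 - R ^ 2)) with hΨ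
  have hΨu : UpperSemicontinuousOn Ψ Ω := by
    apply hGu.add
    apply ContinuousOn.upperSemicontinuousOn
    fun_prop
  have hz₀Ω : ((ζ₀, 0) : ℂ × X) ∈ Ω := ⟨hζ₀, by simp⟩
  obtain ⟨q, hqΩ, hqmax⟩ := hΨu.exists_isMaxOn ⟨_, hz₀Ω⟩ hΩc
  obtain ⟨ζ, w⟩ := q
  have hneg : ∀ q ∈ Ω, ε * (‖q.1‖ ^ 2 - R ^ 2) ≤ 0 := by
    intro q hq
    have h1 : ‖q.1‖ ≤ R := by simpa using hR hq.1
    have h2 : ‖q.1‖ ^ 2 ≤ R ^ 2 := by
      have := norm_nonneg q.1
      nlinarith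
    nlinarith
  have hΨge : δ / 2 ≤ Ψ (ζ, w) := by
    have h1 : Ψ (ζ₀, 0) ≤ Ψ (ζ, w) := hqmax hz₀Ω
    refine le_trans ?_ h1
    simp only [hΨ, hG, add_zero, norm_zero]
    have : 0 ≤ ‖ζ₀‖ ^ 2 := by positivity
    nlinarith
  have hwτ : ‖w‖ < τ := by
    by_contra hh
    push Not at hh
    have h1 := hB' _ hqΩ
    have h2 := hneg _ hqΩ
    have h3 : L * τ ^ 2 ≤ L * ‖w‖ ^ 2 := by
      apply mul_le_mul_of_nonneg_left _ hL0.le
      exact pow_le_pow_left₀ hτ0.le hh 2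
    have h4 := le_abs_self B
    simp only [hΨ] at hΨge
    simp only at h2
    linarith
  have hζi : ζ ∈ interior K := by
    have h1 : ζ ∈ K := hqΩ.1
    by_contra hh
    have h2 : ζ ∈ frontier K := by
      rw [hK.isClosed.frontier_eq]
      exact ⟨h1, hh⟩
    have h3 := hτ _ hqΩ h2 hwτ
    have h4 := hneg _ hqΩ
    have h5 : 0 ≤ L * ‖w‖ ^ 2 := by positivity
    simp only [hΨ] at hΨge
    simp only at h4
    linarith
  -- small radius
  have hball : ∀ᶠ ρ in 𝓝[>] (0 : ℝ), closedBall ζ ρ ⊆ K := by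
    obtain ⟨r, hr, hrK⟩ := Metric.isOpen_iff.1 isOpen_interior ζ hζi
    filter_upwards [Ioo_mem_nhdsGT hr] with ρ hρ
    exact (closedBall_subset_ball hρ.2).trans (hrK.trans interior_subset)
  have hsm1 : ∀ᶠ ρ in 𝓝[>] (0 : ℝ), ‖w‖ + ρ ^ 2 * ‖γ‖ < 1 := by
    have : Tendsto (fun ρ : ℝ => ‖w‖ + ρ ^ 2 * ‖γ‖) (𝓝[>] 0) (𝓝 (‖w‖ + 0 ^ 2 * ‖γ‖)) :=
      (Continuous.tendsto (by fun_prop) 0).mono_left nhdsWithin_le_nhds
    apply this.eventually_lt_const
    simp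
    linarith
  have hsm2 : ∀ᶠ ρ in 𝓝[>] (0 : ℝ), L * (ρ ^ 2 * ‖γ‖ ^ 2) < ε := by
    have : Tendsto (fun ρ : ℝ => L * (ρ ^ 2 * ‖γ‖ ^ 2)) (𝓝[>] 0)
        (𝓝 (L * (0 ^ 2 * ‖γ‖ ^ 2))) :=
      (Continuous.tendsto (by fun_prop) 0).mono_left nhdsWithin_le_nhds
    apply this.eventually_lt_const
    simpa using hε0
  obtain ⟨ρ, hρ1, hρ2, hρ3, hρ4, hρ0⟩ :=
    (hball.and (hsm1.and (hsm2.and ((hHm ζ hζi).and self_mem_nhdsWithin)))).exists
  have hρ0' : 0 < ρ := hρ0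
  -- sub-mean
  set c : X := (ρ : ℂ) ^ 2 • γ with hc
  have hcn : ‖c‖ = ρ ^ 2 * ‖γ‖ := by
    rw [hc, norm_smul, norm_pow, norm_real, norm_eq_abs, sq_abs]
  set P : ℂ → ℂ := fun s => -(2 * L) * (s ^ 2 * inner ℂ w c) - (2 * ε) * (s * (ρ * conj ζ))
    with hP
  have hPd : Differentiable ℂ P := by fun_prop
  set M : ℝ := Ψ (ζ, w) with hM
  set g : ℂ → ℝ := fun s => (M + L * (‖w‖ ^ 2 + ‖c‖ ^ 2) - ε * (‖ζ‖ ^ 2 + ρ ^ 2 - R ^ 2)) +
    ((P s).re + H (ρ * s + ζ)) with hg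
  have hmemK : ∀ s ∈ sphere (0 : ℂ) 1, (ρ * s + ζ) ∈ K := by
    intro s hs
    apply hρ1
    have h1 : ‖s‖ = 1 := by simpa using hs
    simp [h1, abs_of_pos hρ0']
  have hHs : ContinuousOn (fun s : ℂ => H (ρ * s + ζ)) (sphere 0 1) :=
    hH.comp (by fun_prop) hmemK
  have hgc : ContinuousOn g (sphere 0 1) := by
    apply continuousOn_const.add
    apply ContinuousOn.add _ hHs
    exact (Complex.continuous_re.comp hPd.continuous).continuousOn
  have hle : ∀ s ∈ sphere (0 : ℂ) 1, v ((F ζ + w) + s • ((ρ : ℂ) • (β + (2 * ζ) • γ))) ≤ g s := by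
    intro s hs
    have h1 : ‖s‖ = 1 := by simpa using hs
    set w' : X := w - s ^ 2 • c with hw'
    have e1 : (F ζ + w) + s • ((ρ : ℂ) • (β + (2 * ζ) • γ)) = F (ρ * s + ζ) + w' := by
      simp only [hF, hw', hc]
      module
    have hmem : ((ρ * s + ζ, w') : ℂ × X) ∈ Ω := by
      refine ⟨hmemK s hs, ?_⟩
      rw [mem_closedBall_zero_iff]
      calc ‖w'‖ ≤ ‖w‖ + ‖s ^ 2 • c‖ := norm_sub_le _ _
        _ = ‖w‖ + ρ ^ 2 * ‖γ‖ := by rw [norm_smul, norm_pow, h1, hcn]; simp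
        _ ≤ 1 := hρ2.le
    have h2 : Ψ (ρ * s + ζ, w') ≤ M := hqmax hmem
    rw [e1]
    simp only [hΨ, hG] at h2
    have h3 := norm_sub_sq_circle w c s hs
    have h4 := norm_add_sq_circle ζ ρ s hs
    have h5 : (ρ : ℂ) * s + ζ = ζ + ρ * s := by ring
    rw [← h5] at h4
    rw [← hw'] at h3
    simp only [hg, hP]
    have h6 : (-(2 * (L : ℂ)) * (s ^ 2 * inner ℂ w c) - (2 * (ε : ℂ)) * (s * (ρ * conj ζ))).re =
        -(2 * L) * (s ^ 2 * inner ℂ w c).re - 2 * ε * (s * (ρ * conj ζ)).re := by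
      have e2 : -(2 * (L : ℂ)) = ((-(2 * L) : ℝ) : ℂ) := by push_cast; ring
      have e3 : (2 * (ε : ℂ)) = ((2 * ε : ℝ) : ℂ) := by push_cast; ring
      rw [Complex.sub_re, e2, e3, Complex.re_ofReal_mul, Complex.re_ofReal_mul]
    rw [h6]
    rw [h3, h4] at h2
    linarith
  have hfin := hsm (F ζ + w) ((ρ : ℂ) • (β + (2 * ζ) • γ)) g hgc hle
  have hav : circleAverage g 0 1 =
      (M + L * (‖w‖ ^ 2 + ‖c‖ ^ 2) - ε * (‖ζ‖ ^ 2 + ρ ^ 2 - R ^ 2)) + (0 + circleAverage H ζ ρ) := by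
    rw [hg, circleAverage_fun_add (circleIntegrable_const _ _ _), circleAverage_fun_add,
      circleAverage_const, circleAverage_re P hPd, circleAverage_eq_circleAverage_zero_one (f := H)]
    · simp [hP]
    · exact (Complex.continuous_re.comp hPd.continuous).continuousOn.circleIntegrable'
    · apply ContinuousOn.circleIntegrable'
      simpa using hHs
    · apply ContinuousOn.circleIntegrable'
      apply ContinuousOn.add
      · exact (Complex.continuous_re.comp hPd.continuous).continuousOn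
      · simpa using hHs
  rw [hav] at hfin
  have h7 : M = v (F ζ + w) + -H ζ + (-(L * ‖w‖ ^ 2) + ε * (‖ζ‖ ^ 2 - R ^ 2)) := rfl
  have h8 : L * ‖c‖ ^ 2 < ε * ρ ^ 2 := by
    rw [hcn]
    have : L * (ρ ^ 2 * ‖γ‖) ^ 2 = (L * (ρ ^ 2 * ‖γ‖ ^ 2)) * ρ ^ 2 := by ring
    rw [this]
    exact mul_lt_mul_of_pos_right hρ3 (by positivity)
  nlinarith

end Pool.Agent.H40.Pluri
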