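import Pool.Agent.H40.Pluri.Defs
import Pool.Agent.H40.Pluri.Geom

set_option autoImplicit false

open Set Filter Topology Metric Real Complex ComplexConjugate

namespace Pool.Agent.H40.Pluri

variable {X : Type*} [NormedAddCommGroup X] [InnerProductSpace ℂ X]

/-- Positive part of a Lelong function as a real function. -/
noncomputable def pos (u : X → EReal) (z : X) : ℝ := (max (u z) 0).toReal

omit [NormedAddCommGroup X] [InnerProductSpace ℂ X] in
lemma coe_pos {u : X → EReal} (hu : ∀ z, u z ≠ ⊤) (z : X) : ((pos u z : ℝ) : EReal) = max (u z) 0 := by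
  apply EReal.coe_toReal
  · intro h
    rcases le_total (u z) 0 with h1 | h1
    · rw [max_eq_right h1] at h; exact absurd h (by simp)
    · rw [max_eq_left h1] at h; exact hu z h
  · intro h
    have : (0 : EReal) ≤ ⊥ := h ▸ le_max_right (u z) 0
    exact absurd this (by simp)

lemma good_pos {E : Set X} {u : X → EReal} (hu : IsLelong u) (hE : ∀ w ∈ E, u w ≤ 0) :
    Good E (pos u) := by
  obtain ⟨⟨husc, htop, hsm⟩, C, hC⟩ := hu
  have hcoe := coe_pos htop
  have h0 : ∀ z, 0 ≤ pos u z := by
    intro z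
    have : ((0 : ℝ) : EReal) ≤ (pos u z : EReal) := by
      rw [hcoe]; exact le_max_right _ _
    exact_mod_cast this
  refine ⟨?_, ?_, h0, ?_, |C|, ?_⟩
  · intro z y hy
    have h1 : max (u z) 0 < (y : EReal) := by
      rw [← hcoe]; exact_mod_cast hy
    rw [max_lt_iff] at h1
    filter_upwards [husc z _ h1.1] with w hw
    have h2 : max (u w) 0 < (y : EReal) := max_lt hw h1.2
    rw [← hcoe] at h2
    exact_mod_cast h2
  · intro a b g hg hle
    have h1 : ∀ s ∈ sphere (0 : ℂ) 1, u (a + s • b) ≤ (g s : EReal) := by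
      intro s hs
      refine (le_max_left _ 0).trans ?_
      rw [← hcoe]
      exact_mod_cast hle s hs
    have h2 := hsm a b g hg h1
    have h3 : 0 ≤ circleAverage g 0 1 := by
      apply circleAverage_nonneg_of_nonneg
      intro s hs
      rw [abs_one] at hs
      exact (h0 _).trans (hle s hs)
    have h4 : ((pos u a : ℝ) : EReal) ≤ ((circleAverage g 0 1 : ℝ) : EReal) := by
      rw [hcoe]
      exact max_le h2 (by exact_mod_cast h3)
    exact_mod_cast h4
  · intro z hz
    have h1 : ((pos u z : ℝ) : EReal) ≤ ((0 : ℝ) : EReal) := by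
      rw [hcoe]
      exact max_le (hE z hz) le_rfl
    exact_mod_cast h1
  · intro z
    have h1 : 0 ≤ Real.log (1 + ‖z‖) := Real.log_nonneg (by linarith [norm_nonneg z])
    have h2 : ((pos u z : ℝ) : EReal) ≤ ((Real.log (1 + ‖z‖) + |C| : ℝ) : EReal) := by
      rw [hcoe]
      apply max_le
      · refine (hC z).trans ?_
        exact_mod_cast add_le_add le_rfl (le_abs_self C)
      · have : (0 : ℝ) ≤ Real.log (1 + ‖z‖) + |C| := by positivity
        exact_mod_cast this
    exact_mod_cast h2

lemma lelong_of_good {E : Set X} {v : X → ℝ} (hv : Good E v) :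
    IsLelong (fun z => (v z : EReal)) ∧ ∀ w ∈ E, (v w : EReal) ≤ 0 := by
  refine ⟨⟨⟨?_, fun z => EReal.coe_ne_top _, ?_⟩, ?_⟩, ?_⟩
  · intro z y hy
    induction y with
    | bot => exact absurd hy (by simp)
    | top => exact Eventually.of_forall fun w => EReal.coe_lt_top _
    | coe y =>
      have h1 : v z < y := EReal.coe_lt_coe_iff.1 hy
      filter_upwards [hv.usc z y h1] with w hw
      exact EReal.coe_lt_coe_iff.2 hw
  · intro a b g hg hle
    have h1 : ∀ s ∈ sphere (0 : ℂ) 1, v (a + s • b) ≤ g s := by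
      intro s hs
      exact EReal.coe_le_coe_iff.1 (hle s hs)
    exact EReal.coe_le_coe_iff.2 (hv.sm a b g hg h1)
  · obtain ⟨C, hC⟩ := hv.gr
    exact ⟨C, fun z => EReal.coe_le_coe_iff.2 (hC z)⟩
  · intro w hw
    exact_mod_cast hv.onE w hw

lemma good_zero (E : Set X) : Good E (fun _ => 0) := by
  refine ⟨upperSemicontinuous_const, ?_, fun _ => le_rfl, fun _ _ => le_rfl, 0, ?_⟩
  · intro a b g hg hle
    apply circleAverage_nonneg_of_nonneg
    intro s hs
    rw [abs_one] at hs
    exact hle s hs
  · intro z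
    have h1 : 0 ≤ Real.log (1 + ‖z‖) := Real.log_nonneg (by linarith [norm_nonneg z])
    linarith

/-- Translation and truncation. -/
lemma good_translate {E : Set X} {v : X → ℝ} (hv : Good E v) (h : X) (c : ℝ)
    (hc : ∀ p ∈ E, v (p + h) ≤ c) : Good E (fun z => max (v (z + h) - c) 0) := by
  refine ⟨?_, ?_, fun _ => le_max_right _ _, ?_, ?_⟩
  · intro z y hy
    rw [max_lt_iff] at hy
    have h1 : UpperSemicontinuous (fun z => v (z + h)) := hv.usc.comp (continuous_id.add continuous_const)
    have h2 : v (z + h) < y + c := by linarith [hy.1]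
    filter_upwards [h1 z _ h2] with w hw
    exact max_lt (by linarith) hy.2
  · intro a b g hg hle
    have h1 : ∀ s ∈ sphere (0 : ℂ) 1, v ((a + h) + s • b) ≤ g s + c := by
      intro s hs
      have h2 := (le_max_left _ _).trans (hle s hs)
      have h3 : a + h + s • b = a + s • b + h := by abel
      rw [h3]
      linarith
    have h4 := hv.sm (a + h) b (fun s => g s + c) (hg.add continuousOn_const) h1
    have h5 : circleAverage (fun s => g s + c) 0 1 = circleAverage g 0 1 + c := by
      rw [circleAverage_fun_add _ (circleIntegrable_const _ _ _), circleAverage_const]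
      apply ContinuousOn.circleIntegrable'
      simpa using hg
    rw [h5] at h4
    apply max_le
    · linarith
    · apply circleAverage_nonneg_of_nonneg
      intro s hs
      rw [abs_one] at hs
      exact (le_max_right _ _).trans (hle s hs)
  · intro z hz
    exact max_le (by linarith [hc z hz]) le_rfl
  · obtain ⟨C, hC⟩ := hv.gr
    refine ⟨Real.log (1 + ‖h‖) + |C| + |c|, fun z => ?_⟩
    have h1 : 0 ≤ Real.log (1 + ‖z‖) := Real.log_nonneg (by linarith [norm_nonneg z])
    have h2 : 0 ≤ Real.log (1 + ‖h‖) := Real.log_nonneg (by linarith [norm_nonneg h])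
    have h3 : Real.log (1 + ‖z + h‖) ≤ Real.log (1 + ‖z‖) + Real.log (1 + ‖h‖) := by
      rw [← Real.log_mul (by positivity) (by positivity)]
      apply Real.log_le_log (by positivity)
      have := norm_add_le z h
      nlinarith [mul_nonneg (norm_nonneg z) (norm_nonneg h)]
    apply max_le
    · have := hC (z + h)
      linarith [le_abs_self C, neg_abs_le c]
    · positivity

/-- The Green function through good functions. -/
noncomputable def W (E : Set X) (z : X) : ℝ := sSup {t | ∃ v, Good E v ∧ v z = t}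

theorem main_analysis [FiniteDimensional ℂ X] (E : Set X) (hE : IsCompact E) (hne : E.Nonempty)
    (C e : ℝ) (hC : 0 < C) (he : 0 < e) (hP : PropP E C e) :
    (∀ z, greenV E z = (W E z : EReal)) ∧
      ∃ A α : ℝ, 0 < α ∧ ∀ z w, |W E z - W E w| ≤ A * ‖z - w‖ ^ α := by
  obtain ⟨r₀, B, q, hr₀, hB, hq0, hq1, huni⟩ := uniform E hE hne C e hC he hP
  set α : ℝ := Real.log (1 / q) / Real.log 2 with hα
  have hlog2 : 0 < Real.log 2 := Real.log_pos (by norm_num)
  have hlogq : 0 < Real.log (1 / q) := Real.log_pos (by rw [lt_div_iff₀ hq0]; linarith)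
  have hα0 : 0 < α := div_pos hlogq hlog2
  have hqα : ∀ j : ℕ, q ^ j = ((1 / 2 : ℝ) ^ j) ^ α := by
    intro j
    rw [← Real.rpow_natCast (1 / 2 : ℝ) j, ← Real.rpow_mul (by norm_num), mul_comm,
      Real.rpow_mul (by norm_num), Real.rpow_natCast]
    congr 1
    rw [Real.rpow_def_of_pos (by norm_num), hα]
    have h1 : Real.log (1 / 2) = -Real.log 2 := by rw [one_div, Real.log_inv]
    have h2 : Real.log (1 / q) = -Real.log q := by rw [one_div, Real.log_inv]
    rw [h1, h2]
    have h3 : -Real.log 2 * (-Real.log q / Real.log 2) = Real.log q := by field_simp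
    rw [h3, Real.exp_log hq0]
  set A : ℝ := (B / q + 1 / α) / r₀ ^ α with hA
  have hr₀α : 0 < r₀ ^ α := Real.rpow_pos_of_pos hr₀ α
  have hA0 : 0 ≤ A := by positivity
  -- modulus
  have hmod : ∀ v, Good E v → ∀ h : X, ∀ p ∈ E, v (p + h) ≤ A * ‖h‖ ^ α := by
    intro v hv h p hp
    rcases eq_or_ne h 0 with rfl | hh
    · rw [add_zero, norm_zero, Real.zero_rpow hα0.ne', mul_zero]
      exact hv.onE p hp
    have hhn : 0 < ‖h‖ := norm_pos_iff.2 hh
    have hAx : A * ‖h‖ ^ α = (B / q + 1 / α) * (‖h‖ / r₀) ^ α := by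
      rw [hA, Real.div_rpow hhn.le hr₀.le]
      field_simp
    rw [hAx]
    rcases le_or_gt ‖h‖ r₀ with hle | hgt
    · -- choose j
      obtain ⟨n, hn⟩ := exists_nat_pow_near (x := r₀ / ‖h‖) (y := 2)
        (by rw [le_div_iff₀ hhn]; linarith) (by norm_num)
      obtain ⟨hn1, hn2⟩ := hn
      have h1 : ‖h‖ ≤ r₀ / 2 ^ n := by
        rw [le_div_iff₀ (by positivity)]
        rw [le_div_iff₀ hhn] at hn1
        linarith
      have h2 : (1 / 2 : ℝ) ^ (n + 1) ≤ ‖h‖ / r₀ := by
        rw [div_lt_iff₀ hhn] at hn2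
        rw [le_div_iff₀ hr₀, one_div_pow, div_mul_eq_mul_div, one_mul, div_le_iff₀ (by positivity)]
        linarith
      have h3 : p + h ∈ cthickening (r₀ / 2 ^ n) E := by
        apply mem_cthickening_of_dist_le _ p _ E hp
        rw [dist_eq_norm, add_sub_cancel_left]
        exact h1
      refine (huni n v hv _ h3).trans ?_
      have h4 : q ^ (n + 1) ≤ (‖h‖ / r₀) ^ α := by
        rw [hqα]
        exact Real.rpow_le_rpow (by positivity) h2 hα0.le
      have h5 : B * q ^ n = B / q * q ^ (n + 1) := by rw [pow_succ]; field_simp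
      rw [h5]
      have h6 : B / q * q ^ (n + 1) ≤ B / q * (‖h‖ / r₀) ^ α :=
        mul_le_mul_of_nonneg_left h4 (by positivity)
      have h7 : 0 ≤ 1 / α * (‖h‖ / r₀) ^ α := by positivity
      linarith
    · obtain ⟨Cv, hCv⟩ := hv.gr
      have h1 := growth v hv.usc hv.sm Cv hCv p r₀ B hr₀ (by
        intro w hw
        have h2 : w ∈ cthickening (r₀ / 2 ^ 0) E := by
          apply mem_cthickening_of_dist_le _ p _ E hp
          simpa using hw
        simpa using huni 0 v hv w h2) (p + h) (by rw [add_sub_cancel_left]; exact hgt.le)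
      rw [add_sub_cancel_left] at h1
      refine h1.trans ?_
      have hx1 : 1 ≤ ‖h‖ / r₀ := by rw [le_div_iff₀ hr₀]; linarith
      have h3 : Real.log (‖h‖ / r₀) ≤ 1 / α * (‖h‖ / r₀) ^ α := by
        have h2 := Real.log_le_rpow_div (x := ‖h‖ / r₀) (by positivity) hα0
        have h2' : (‖h‖ / r₀) ^ α / α = 1 / α * (‖h‖ / r₀) ^ α := by ring
        linarith
      have h4 : 1 ≤ (‖h‖ / r₀) ^ α := Real.one_le_rpow hx1 hα0.le
      have h5 : B ≤ B / q := by
        rw [le_div_iff₀ hq0]
        nlinarith
      have h6 : B / q ≤ B / q * (‖h‖ / r₀) ^ α := by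
        have : 0 ≤ B / q := by positivity
        nlinarith
      linarith
  obtain ⟨p₀, hp₀⟩ := hne
  have hbdd : ∀ z, BddAbove {t | ∃ v, Good E v ∧ v z = t} := by
    intro z
    refine ⟨A * ‖z - p₀‖ ^ α, ?_⟩
    rintro t ⟨v, hv, rfl⟩
    have := hmod v hv (z - p₀) p₀ hp₀
    rwa [add_sub_cancel] at this
  have hle : ∀ v, Good E v → ∀ z, v z ≤ W E z := fun v hv z => le_csSup (hbdd z) ⟨v, hv, rfl⟩
  have hne' : ∀ z : X, {t | ∃ v, Good E v ∧ v z = t}.Nonempty := fun z =>
    ⟨0, fun _ => 0, good_zero E, rfl⟩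
  have hWle : ∀ z t, (∀ v, Good E v → v z ≤ t) → W E z ≤ t := by
    intro z t h
    apply csSup_le (hne' z)
    rintro _ ⟨v, hv, rfl⟩
    exact h v hv
  refine ⟨fun z => ?_, A, α, hα0, fun z w => ?_⟩
  · apply le_antisymm
    · apply iSup₂_le
      rintro u ⟨hu, huE⟩
      have h1 := hle _ (good_pos hu huE) z
      have h2 : u z ≤ (pos u z : EReal) := by
        rw [coe_pos hu.1.2.1]; exact le_max_left _ _
      refine h2.trans ?_
      exact_mod_cast h1
    · have h1 : ∀ v, Good E v → (v z : EReal) ≤ greenV E z := by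
        intro v hv
        exact le_iSup₂_of_le (fun z => (v z : EReal)) (lelong_of_good hv) le_rfl
      -- sup of reals
      apply le_of_forall_lt
      intro c hc
      induction c with
      | bot =>
        have h2 := h1 _ (good_zero E)
        exact lt_of_lt_of_le (EReal.bot_lt_coe 0) h2
      | top => exact absurd hc (by simp)
      | coe c =>
        have h2 : c < W E z := by exact_mod_cast hc
        obtain ⟨_, ⟨v, hv, rfl⟩, h3⟩ := exists_lt_of_lt_csSup (hne' z) h2
        exact lt_of_lt_of_le (by exact_mod_cast h3) (h1 v hv)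
  · have key : ∀ z h : X, W E (z + h) ≤ W E z + A * ‖h‖ ^ α := by
      intro z h
      apply hWle
      intro v hv
      have h1 := hle _ (good_translate hv h _ (fun p hp => hmod v hv h p hp)) z
      have h2 := (le_max_left _ _).trans h1
      linarith
    rw [abs_le]
    constructor
    · have := key z (w - z)
      rw [add_sub_cancel, norm_sub_rev] at this
      linarith
    · have := key w (z - w)
      rw [add_sub_cancel] at this
      linarith

end Pool.Agent.H40.Pluri
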